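import Pool.Agent.Work.MP_85f59e_co.Five.Defs

/-
Clique covers.  The cliques are the five stars (edges through a point `v`) and the ten triangles
(edges disjoint from a given edge).  Two edges in one clique are never disjoint, so a packing has
at most one box inside a product of cliques.

Plan.
* `cover`: bound the product of the `u i (B i)` by the product of the sums over cliques, expand
  with `Finset.prod_univ_sum` (or `Fintype.piFinset`), swap the sums; for a fixed sequence of
  cliques at most one box of `A` lies in all of them (`Pack` and `cl_not_disj`).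
* `cov_row`: weight `x / 2` on the two stars at the ends of `e`, weight `y` on the triangle of `e`.
* `cov_comp`, three cases.  `e = g`: stars at the ends with `x ^ 2 / 2`, triangle with `y ^ 2`.
  `e`, `g` disjoint: the four stars at their ends with `x * y / 2` each.
  `e = ab`, `g = ac` and `d`, `h` the other two points: star at `a` with `x * z`, star at `b` with
  `z ^ 2`, stars at `d` and `h` with `y ^ 2 / 2` each.
  To keep the case analysis small: the star weights seen by an edge `f` are the two weights at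
  `(ends f).1` and `(ends f).2`, and the relation of `f` to `e` is read off from the two truth values
  `inc (ends f).1 e`, `inc (ends f).2 e` (both: equal, none: disjoint); these facts are `decide`.
* `row_le`, `comp_le` follow (for `comp_le` use `prod_mul_distrib`).
-/

namespace Pool.Agent.Work.MP_85f59e_co.Five

open Finset

/-- membership of an edge in a star or a triangle -/
def cl : Fin 5 ⊕ E → E → Prop
  | Sum.inl v, f => inc v f
  | Sum.inr e, f => disj e f

instance (K : Fin 5 ⊕ E) (f : E) : Decidable (cl K f) := by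
  cases K <;> unfold cl <;> infer_instance

lemma cl_not_disj (K : Fin 5 ⊕ E) (f g : E) (hf : cl K f) (hg : cl K g) : ¬ disj f g := by
  revert K f g
  decide +kernel

/-- the weight function `u` has a fractional clique cover of total weight `t` -/
def Cov (u : E → ℝ) (t : ℝ) : Prop :=
  ∃ y : Fin 5 ⊕ E → ℝ, (∀ K, 0 ≤ y K) ∧ ∑ K, y K ≤ t ∧
    ∀ f, u f ≤ ∑ K, if cl K f then y K else 0

lemma cover {ι : Type} [Fintype ι] [DecidableEq ι] {A : Finset (ι → E)} (hA : Pack A)
    (u : ι → E → ℝ) (t : ι → ℝ) (hu : ∀ i f, 0 ≤ u i f) (hc : ∀ i, Cov (u i) (t i)) :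
    ∑ B ∈ A, ∏ i, u i (B i) ≤ ∏ i, t i := by
  choose y hy0 hy1 hy2 using hc
  calc ∑ B ∈ A, ∏ i, u i (B i)
      ≤ ∑ B ∈ A, ∏ i, ∑ K, if cl K (B i) then y i K else 0 :=
        sum_le_sum fun B _ => prod_le_prod (fun i _ => hu i _) fun i _ => hy2 i _
    _ = ∑ K : ι → Fin 5 ⊕ E, ∑ B ∈ A, ∏ i, if cl (K i) (B i) then y i (K i) else 0 := by
        rw [sum_comm]
        exact sum_congr rfl fun B _ => by rw [prod_univ_sum, Fintype.piFinset_univ]
    _ ≤ ∑ K : ι → Fin 5 ⊕ E, ∏ i, y i (K i) := by
        refine sum_le_sum fun K _ => ?_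
        have h1 : (A.filter fun B => ∀ i, cl (K i) (B i)).card ≤ 1 :=
          card_le_one.2 fun B hB B' hB' => by_contra fun hne => by
            obtain ⟨i, hi⟩ := hA B (mem_filter.1 hB).1 B' (mem_filter.1 hB').1 hne
            exact cl_not_disj _ _ _ ((mem_filter.1 hB).2 i) ((mem_filter.1 hB').2 i) hi
        simp only [Fintype.prod_ite_zero]
        rw [← sum_filter, sum_const, nsmul_eq_mul]
        exact mul_le_of_le_one_left (prod_nonneg fun i _ => hy0 i _) (by exact_mod_cast h1)
    _ = ∏ i, ∑ K, y i K := by rw [prod_univ_sum, Fintype.piFinset_univ]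
    _ ≤ ∏ i, t i := prod_le_prod (fun i _ => sum_nonneg fun K _ => hy0 i K) fun i _ => hy1 i

lemma Cover_rel : ∀ e f : E, (e = f ↔ inc (ends f).1 e ∧ inc (ends f).2 e) ∧
    (disj e f ↔ ¬ inc (ends f).1 e ∧ ¬ inc (ends f).2 e) := by decide +kernel

lemma Cover_w (x y z : ℝ) (e f : E) : w x y z e f =
    if inc (ends f).1 e ∧ inc (ends f).2 e then x
    else if ¬ inc (ends f).1 e ∧ ¬ inc (ends f).2 e then y else z := by
  simp only [w, (Cover_rel e f).1, (Cover_rel e f).2]

lemma Cover_ends : ∀ f : E, (ends f).1 ≠ (ends f).2 ∧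
    (univ.filter fun v => inc v f) = {(ends f).1, (ends f).2} := by decide +kernel

lemma Cover_of {u : E → ℝ} {t r : ℝ} (s : Fin 5 → ℝ) (e : E) (hs : ∀ v, 0 ≤ s v) (hr : 0 ≤ r)
    (ht : ∑ v, s v + r ≤ t)
    (hu : ∀ f, u f ≤ s (ends f).1 + s (ends f).2 + if disj e f then r else 0) : Cov u t := by
  refine ⟨Sum.elim s fun g => if g = e then r else 0, ?_, ?_, fun f => (hu f).trans_eq ?_⟩
  · rintro (v | g)
    · exact hs v
    · exact ite_nonneg hr le_rfl
  · simpa using ht
  · rw [Fintype.sum_sum_type]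
    congr 1
    · simp only [cl, Sum.elim_inl]
      rw [← sum_filter, (Cover_ends f).2, sum_pair (Cover_ends f).1]
    · rw [sum_eq_single e (fun g _ hg => by simp [hg]) (by simp)]
      simp [cl]

lemma Cover_sum (p : Fin 5 → Prop) [DecidablePred p] {n : ℕ} (h : (univ.filter p).card = n)
    (a : ℝ) : ∑ v, (if p v then a else 0) = n * a := by
  rw [← sum_filter, sum_const, h, nsmul_eq_mul]

lemma Cover_dj : ∀ e g : E, disj e g → (univ.filter fun v => inc v e ∨ inc v g).card = 4 := by
  decide +kernel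

lemma Cover_mt : ∀ e g : E, e ≠ g → ¬ disj e g →
    (univ.filter fun v => inc v e ∧ inc v g).card = 1 ∧
    (univ.filter fun v => inc v e ∧ ¬ inc v g).card = 1 ∧
    (univ.filter fun v => ¬ inc v e ∧ ¬ inc v g).card = 2 := by decide +kernel

lemma cov_row {x y z : ℝ} (hy : 0 ≤ y) (hz : 0 ≤ z) (hzx : 2 * z ≤ x) (e : E) :
    Cov (w x y z e) (x + y) := by
  refine Cover_of (fun v => if inc v e then x / 2 else 0) e
    (fun v => ite_nonneg (by linarith) le_rfl) hy ?_ fun f => ?_
  · rw [Cover_sum _ (card_inc e)]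
    push_cast
    linarith
  · rw [Cover_w]
    simp only [(Cover_rel e f).2]
    by_cases p1 : inc (ends f).1 e <;> by_cases p2 : inc (ends f).2 e <;>
      simp only [p1, p2, not_true, not_false_iff, and_true, and_false, if_true, if_false] <;>
      linarith

lemma cov_comp {x y z : ℝ} (hz : 0 ≤ z) (hzy : 2 * z ≤ y) (hyx : y ≤ x) (e g : E) :
    Cov (fun f => w x y z e f * w x y z f g)
      (w (x ^ 2 + y ^ 2) (2 * x * y) (y ^ 2 + x * z + z ^ 2) e g) := by
  have hy : 0 ≤ y := by linarith
  have a1 := mul_nonneg hz hz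
  have a2 := mul_le_mul_of_nonneg_left hzy hz
  have a3 := mul_le_mul_of_nonneg_left hzy hy
  have a4 := mul_le_mul_of_nonneg_left hyx hy
  have a5 := mul_le_mul_of_nonneg_left hyx hz
  have a6 := mul_le_mul_of_nonneg_left hzy (hy.trans hyx)
  have a7 := mul_le_mul_of_nonneg_left hyx (hy.trans hyx)
  by_cases h1 : e = g
  · subst h1
    have h2 : (fun f => w x y z e f * w x y z f e) = w (x ^ 2) (y ^ 2) (z ^ 2) e := by
      funext f
      rw [w_comm x y z f e]
      unfold w
      split_ifs <;> ring
    rw [h2, w, if_pos rfl]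
    exact cov_row (sq_nonneg _) (sq_nonneg _) (by linarith) e
  have b1 : ∀ f, ¬ (e = f ∧ g = f) := fun f h => h1 (h.1.trans h.2.symm)
  rw [w, if_neg h1]
  split_ifs with h2
  · refine Cover_of (r := 0) (fun v => if inc v e ∨ inc v g then x * y / 2 else 0) e
      (fun v => ite_nonneg (by linarith) le_rfl) le_rfl ?_ fun f => ?_
    · rw [Cover_sum _ (Cover_dj e g h2)]
      push_cast
      linarith
    · have b2 : ¬ (disj e f ∧ disj g f) := fun h =>
        tri_not_disj e g f h2 h.1 h.2
      have b3 := b1 f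
      rw [w_comm x y z f g, Cover_w, Cover_w, ite_self]
      rw [(Cover_rel e f).2, (Cover_rel g f).2] at b2
      rw [(Cover_rel e f).1, (Cover_rel g f).1] at b3
      by_cases p1 : inc (ends f).1 e <;> by_cases p2 : inc (ends f).2 e <;>
        by_cases q1 : inc (ends f).1 g <;> by_cases q2 : inc (ends f).2 g <;>
        simp only [p1, p2, q1, q2, not_true, not_false_iff, and_true, and_false, or_true, or_false,
          if_true, if_false] at b2 b3 ⊢ <;> linarith
  · obtain ⟨c1, c2, c3⟩ := Cover_mt e g h1 h2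
    refine Cover_of (r := 0) (fun v => (if inc v e ∧ inc v g then x * z else 0) +
      (if inc v e ∧ ¬ inc v g then z ^ 2 else 0) + if ¬ inc v e ∧ ¬ inc v g then y ^ 2 / 2 else 0) e
      (fun v => add_nonneg (add_nonneg (ite_nonneg (by linarith) le_rfl)
        (ite_nonneg (by linarith) le_rfl)) (ite_nonneg (by linarith) le_rfl)) le_rfl ?_ fun f => ?_
    · rw [sum_add_distrib, sum_add_distrib, Cover_sum _ c1, Cover_sum _ c2, Cover_sum _ c3]
      push_cast
      linarith
    · have b2 : ¬ (e = f ∧ disj g f) := fun h => h2 ((disj_comm _ _).1 (h.1 ▸ h.2))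
      have b4 : ¬ (g = f ∧ disj e f) := fun h => h2 (h.1 ▸ h.2)
      have b3 := b1 f
      rw [w_comm x y z f g, Cover_w, Cover_w, ite_self]
      rw [(Cover_rel e f).1, (Cover_rel g f).2] at b2
      rw [(Cover_rel g f).1, (Cover_rel e f).2] at b4
      rw [(Cover_rel e f).1, (Cover_rel g f).1] at b3
      by_cases p1 : inc (ends f).1 e <;> by_cases p2 : inc (ends f).2 e <;>
        by_cases q1 : inc (ends f).1 g <;> by_cases q2 : inc (ends f).2 g <;>
        simp only [p1, p2, q1, q2, not_true, not_false_iff, and_true, and_false,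
          if_true, if_false] at b2 b3 b4 ⊢ <;> linarith

lemma row_le {ι : Type} [Fintype ι] [DecidableEq ι] {A : Finset (ι → E)} (hA : Pack A)
    {x y z : ℝ} (hy : 0 ≤ y) (hz : 0 ≤ z) (hzx : 2 * z ≤ x) (B : ι → E) :
    ∑ B' ∈ A, ∏ i, w x y z (B i) (B' i) ≤ (x + y) ^ Fintype.card ι := by
  refine (cover hA (fun i => w x y z (B i)) (fun _ => x + y)
    (fun i f => w_nonneg (by linarith) hy hz _ _) fun i => cov_row hy hz hzx _).trans_eq ?_
  rw [prod_const, card_univ]

lemma comp_le {ι : Type} [Fintype ι] [DecidableEq ι] {A : Finset (ι → E)} (hA : Pack A)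
    {x y z : ℝ} (hz : 0 ≤ z) (hzy : 2 * z ≤ y) (hyx : y ≤ x) (B B'' : ι → E) :
    ∑ B' ∈ A, (∏ i, w x y z (B i) (B' i)) * ∏ i, w x y z (B' i) (B'' i)
      ≤ ∏ i, w (x ^ 2 + y ^ 2) (2 * x * y) (y ^ 2 + x * z + z ^ 2) (B i) (B'' i) := by
  simp only [← prod_mul_distrib]
  exact cover hA (fun i f => w x y z (B i) f * w x y z f (B'' i)) _
    (fun i f => mul_nonneg (w_nonneg (by linarith) (by linarith) hz _ _)
      (w_nonneg (by linarith) (by linarith) hz _ _)) fun i => cov_comp hz hzy hyx _ _

end Pool.Agent.Work.MP_85f59e_co.Five
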