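import Mathlib

/-
Order five: boxes in two-fold codes.  Basic objects.
A box in `[5]^k` is a sequence of edges of the complete graph on five points.
-/

namespace Pool.Agent.Work.MP_85f59e_co.Five

open Finset

/-- the ten edges of the complete graph on five points -/
abbrev E := Fin 10

/-- the two end points of an edge -/
def ends : E → Fin 5 × Fin 5 :=
  ![(0, 1), (0, 2), (0, 3), (0, 4), (1, 2), (1, 3), (1, 4), (2, 3), (2, 4), (3, 4)]

/-- the point `v` lies on the edge `e` -/
def inc (v : Fin 5) (e : E) : Prop := v = (ends e).1 ∨ v = (ends e).2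

instance (v : Fin 5) (e : E) : Decidable (inc v e) := by unfold inc; infer_instance

/-- two edges have no common point -/
def disj (e f : E) : Prop := ∀ v, ¬ (inc v e ∧ inc v f)

instance (e f : E) : Decidable (disj e f) := by unfold disj; infer_instance

/-- weight `x` for equal edges, `y` for disjoint edges, `z` for edges with one common point -/
noncomputable def w (x y z : ℝ) (e f : E) : ℝ := if e = f then x else if disj e f then y else z

/-- distinct boxes of the family are disjoint -/
def Pack {ι : Type} (A : Finset (ι → E)) : Prop :=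
  ∀ B ∈ A, ∀ B' ∈ A, B ≠ B' → ∃ i, disj (B i) (B' i)

/-- number of coordinates in which the two edges have exactly one common point -/
def meets {ι : Type} [Fintype ι] (B B' : ι → E) : ℕ :=
  (univ.filter fun i => B i ≠ B' i ∧ ¬ disj (B i) (B' i)).card

/-- a symmetric nonnegative kernel on the family `A`, dominated by a product weight and with
total mass at least `c` times the size of the family -/
structure Ker {ι : Type} [Fintype ι] (A : Finset (ι → E)) (x y z c : ℝ)
    (K : (ι → E) → (ι → E) → ℝ) : Prop where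
  nonneg : ∀ B B', 0 ≤ K B B'
  symm : ∀ B B', K B B' = K B' B
  le : ∀ B ∈ A, ∀ B' ∈ A, K B B' ≤ ∏ i, w x y z (B i) (B' i)
  big : c * A.card ≤ ∑ B ∈ A, ∑ B' ∈ A, K B B'

/-- every axis line holds exactly two points of `S` -/
def TwoFold {ι : Type} [Fintype ι] [DecidableEq ι] (S : Finset (ι → Fin 5)) : Prop :=
  ∀ p i, (univ.filter fun a => Function.update p i a ∈ S).card = 2

/-- the box `B` is contained in `S` -/
def InS {ι : Type} (S : Finset (ι → Fin 5)) (B : ι → E) : Prop :=
  ∀ p : ι → Fin 5, (∀ i, inc (p i) (B i)) → p ∈ S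

/-- a pair of disjoint edges in every coordinate -/
def IsPairing {ι : Type} (M : ι → E × E) : Prop := ∀ i, disj (M i).1 (M i).2

/-- the box uses in every coordinate one of the two edges of `M` -/
def InCube {ι : Type} (M : ι → E × E) (B : ι → E) : Prop := ∀ i, B i = (M i).1 ∨ B i = (M i).2

instance {ι : Type} [Fintype ι] (M : ι → E × E) (B : ι → E) : Decidable (InCube M B) := by
  unfold InCube; infer_instance

lemma disj_comm : ∀ e f : E, disj e f ↔ disj f e := by decide

lemma not_disj_self : ∀ e : E, ¬ disj e e := by decide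

lemma exists_disj : ∀ e : E, ∃ f, disj e f := by decide

lemma tri_not_disj : ∀ e f g : E, disj e f → disj e g → ¬ disj f g := by decide +kernel

lemma exists_edge : ∀ a b : Fin 5, a ≠ b → ∃ e : E, ∀ v, inc v e ↔ v = a ∨ v = b := by decide

lemma card_inc : ∀ e : E, (univ.filter fun v => inc v e).card = 2 := by decide

lemma w_comm (x y z : ℝ) (e f : E) : w x y z e f = w x y z f e := by
  unfold w
  by_cases h : e = f
  · simp [h]
  · have h' : ¬ f = e := fun h2 => h h2.symm
    simp only [h, h', if_false, disj_comm e f]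

lemma w_nonneg {x y z : ℝ} (hx : 0 ≤ x) (hy : 0 ≤ y) (hz : 0 ≤ z) (e f : E) :
    0 ≤ w x y z e f := by
  unfold w; split_ifs <;> assumption

lemma w_mono {x y z z' : ℝ} (h : z ≤ z') (e f : E) : w x y z e f ≤ w x y z' e f := by
  unfold w; split_ifs <;> simp [h]

lemma w_le {x y z : ℝ} (hy : y ≤ x) (hz : z ≤ x) (e f : E) : w x y z e f ≤ x := by
  unfold w; split_ifs <;> simp [hy, hz]

lemma meets_comm {ι : Type} [Fintype ι] (B B' : ι → E) : meets B B' = meets B' B := by
  unfold meets
  congr 1
  ext i
  simp only [mem_filter, mem_univ, true_and, disj_comm (B i) (B' i), ne_comm]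

lemma w_tilt {ι : Type} [Fintype ι] (x y z L : ℝ) (B B' : ι → E) :
    (∏ i, w x y z (B i) (B' i)) * L ^ meets B B' = ∏ i, w x y (z * L) (B i) (B' i) := by
  unfold meets
  rw [← prod_const, prod_filter, ← prod_mul_distrib]
  refine prod_congr rfl fun i _ => ?_
  unfold w
  by_cases h1 : B i = B' i
  · simp [h1]
  · by_cases h2 : disj (B i) (B' i) <;> simp [h1, h2]

lemma Pack.mono {ι : Type} {A A' : Finset (ι → E)} (h : Pack A) (hs : A' ⊆ A) : Pack A' :=
  fun B hB B' hB' => h B (hs hB) B' (hs hB')

/-- Jensen for the exponential function, with weights that are not normalised -/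
lemma jensen_exp {α : Type} (s : Finset α) (a t : α → ℝ) (ha : ∀ i ∈ s, 0 ≤ a i)
    (hT : 0 < ∑ i ∈ s, a i) :
    (∑ i ∈ s, a i) * Real.exp ((∑ i ∈ s, a i * t i) / ∑ i ∈ s, a i)
      ≤ ∑ i ∈ s, a i * Real.exp (t i) := by
  set T := ∑ i ∈ s, a i with hTd
  set m := (∑ i ∈ s, a i * t i) / T with hm
  have h1 : ∀ i ∈ s, a i * (Real.exp m * (1 + t i - m)) ≤ a i * Real.exp (t i) := by
    intro i hi
    refine mul_le_mul_of_nonneg_left ?_ (ha i hi)
    have := Real.add_one_le_exp (t i - m)
    calc Real.exp m * (1 + t i - m) ≤ Real.exp m * Real.exp (t i - m) := by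
          gcongr; linarith
      _ = _ := by rw [← Real.exp_add]; ring_nf
  refine le_trans (le_of_eq ?_) (sum_le_sum h1)
  have h2 : ∑ i ∈ s, a i * (Real.exp m * (1 + t i - m))
      = Real.exp m * ((1 - m) * T + ∑ i ∈ s, a i * t i) := by
    rw [hTd, mul_sum, ← sum_add_distrib, mul_sum]
    exact sum_congr rfl fun i _ => by ring
  have h3 : ∑ i ∈ s, a i * t i = m * T := by rw [hm]; field_simp
  rw [h2, h3]; ring

end Pool.Agent.Work.MP_85f59e_co.Five
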