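import Pool.Agent.Work.MP_85f59e_co.Five.Defs

/-
The rank bound over the field with two elements.

Plan.
* `card_le_of_id`: the matrix product of `u` and `v` is the identity, so
  `Matrix.rank_one`, `Matrix.rank_mul_le_left`, `Matrix.rank_le_width` (or `rank_le_card_width`).
* `gain_self`, `gain_disj`: `decide` (or `decide +kernel`; if slow, first replace `disj` by a table).
* `rank_bound`: the index set is `X = Σ c, F c`.  For `(c, B)` put `a i = bit (M c i) (B i)`.  The
  product over `i` of `1 + a i + a' i + gain (M c i) (M c' i)` is `1` on the diagonal and `0` off it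
  (off the diagonal the boxes are different, so disjoint in some coordinate: `gain_disj`).
  Per coordinate this factor is the sum over `τ : Bool ⊕ (E × E)` of `pp τ (M c i) (a i) * qq τ (M c' i) (a' i)`:
  `inl true`: `a * 1`; `inl false`: `1 * (1 + a')`; `inr m`: `[M c i = m] * gain m (M c' i)`.
  Expand the product as a sum over `σ : ι → Bool ⊕ (E × E)`.  Split the `σ` in three classes:
  (1) at most `u` coordinates with `inl true`; (2) not (1) and at most `u` coordinates with
  `inl false`; (3) the rest, which have at most `k - 2 * u - 2` coordinates with `inr`.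
  Class (1): group by `(c, T)`, `T` the set of `inl true` coordinates: the left function is
  `[c = c0] * ∏ i ∈ T, a i`, the right one is the sum over the `σ` of class (1) with this `T` of
  `(∏ i ∉ T, pp (σ i) (M c0 i) 0) * ∏ i, qq ..` (off `T` the factor `pp` does not depend on `a`).
  Class (2): the same with the sides exchanged.  Class (3): one term per `σ`.
  Then `card_le_of_id` with the index type `(Fin r × lowSets) ⊕ (Fin r × lowSets) ⊕ fewPairs`.
* `low_le`, `few_le`: compare the indicator with a product weight and use `Finset.prod_univ_sum`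
  (`Finset.prod_one_add` or `Finset.sum_pow_mul_eq_add_pow` for subsets).
-/

namespace Pool.Agent.Work.MP_85f59e_co.Five

open Finset

lemma card_le_of_id {X J : Type} [Fintype X] [DecidableEq X] [Fintype J]
    (u v : J → X → ZMod 2) (h : ∀ a b, ∑ j, u j a * v j b = if a = b then 1 else 0) :
    Fintype.card X ≤ Fintype.card J := by
  have e : (Matrix.of fun a j => u j a) * (Matrix.of fun j b => v j b) = (1 : Matrix X X (ZMod 2)) := by
    ext a b
    rw [Matrix.mul_apply, Matrix.one_apply, ← h a b]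
    rfl
  have h1 := Matrix.rank_mul_le_left (Matrix.of fun a j => u j a) (Matrix.of fun j b => v j b)
  rw [e, Matrix.rank_one] at h1
  exact h1.trans (Matrix.rank_le_card_width _)

/-- which of the two edges of the pair is used -/
def bit (m : E × E) (e : E) : ZMod 2 := if e = m.1 then 0 else 1

/-- the matching of the edges of two pairs along which the edges meet -/
def gain (m m' : E × E) : ZMod 2 := if ¬ disj m.1 m'.1 ∧ ¬ disj m.2 m'.2 then 0 else 1

lemma gain_self (m : E × E) : gain m m = 0 := by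
  exact if_pos ⟨not_disj_self _, not_disj_self _⟩

lemma Rank_tab : ∀ a b c d : E, disj a b → disj c d →
    (disj a c → 1 + bit (a, b) a + bit (c, d) c + gain (a, b) (c, d) = 0) ∧
    (disj a d → 1 + bit (a, b) a + bit (c, d) d + gain (a, b) (c, d) = 0) ∧
    (disj b c → 1 + bit (a, b) b + bit (c, d) c + gain (a, b) (c, d) = 0) ∧
    (disj b d → 1 + bit (a, b) b + bit (c, d) d + gain (a, b) (c, d) = 0) := by
  decide +kernel

lemma gain_disj (m m' : E × E) (hm : disj m.1 m.2) (hm' : disj m'.1 m'.2) (e e' : E)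
    (he : e = m.1 ∨ e = m.2) (he' : e' = m'.1 ∨ e' = m'.2) (h : disj e e') :
    1 + bit m e + bit m' e' + gain m m' = 0 := by
  obtain ⟨h1, h2, h3, h4⟩ := Rank_tab m.1 m.2 m'.1 m'.2 hm hm'
  rcases he with rfl | rfl <;> rcases he' with rfl | rfl
  exacts [h1 h, h2 h, h3 h, h4 h]

/-- sets of at most `u` coordinates -/
def lowSets (ι : Type) [Fintype ι] [DecidableEq ι] (u : ℕ) : Finset (Finset ι) :=
  univ.filter fun T => T.card ≤ u

/-- choice functions that take a pair of edges in at most `k - 2 u - 2` coordinates -/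
def fewPairs (ι : Type) [Fintype ι] [DecidableEq ι] (u : ℕ) : Finset (ι → Bool ⊕ (E × E)) :=
  univ.filter fun σ => (univ.filter fun i => (σ i).isRight).card + 2 * u + 2 ≤ Fintype.card ι

/-- left factor -/
def Rank_p : Bool ⊕ (E × E) → E × E → ZMod 2 → ZMod 2
  | Sum.inl true, _, a => a
  | Sum.inl false, _, _ => 1
  | Sum.inr n, m, _ => if m = n then 1 else 0

/-- right factor -/
def Rank_q : Bool ⊕ (E × E) → E × E → ZMod 2 → ZMod 2
  | Sum.inl true, _, _ => 1
  | Sum.inl false, _, a => 1 + a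
  | Sum.inr n, m, _ => gain n m

lemma Rank_fac (m m' : E × E) (a a' : ZMod 2) :
    ∑ τ, Rank_p τ m a * Rank_q τ m' a' = 1 + a + a' + gain m m' := by
  rw [Fintype.sum_sum_type, Fintype.sum_bool]
  simp only [Rank_p, Rank_q, ite_mul, one_mul, zero_mul, mul_one, sum_ite_eq, mem_univ, if_true]
  ring

/-- the coordinates with a given choice -/
def Rank_S {ι : Type} [Fintype ι] (b : Bool) (σ : ι → Bool ⊕ (E × E)) : Finset ι :=
  univ.filter fun i => σ i = Sum.inl b

lemma Rank_card {ι : Type} [Fintype ι] (σ : ι → Bool ⊕ (E × E)) :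
    (univ.filter fun i => (σ i).isRight).card + (Rank_S true σ).card + (Rank_S false σ).card
      = Fintype.card ι := by
  simp only [Rank_S, card_filter, ← sum_add_distrib]
  rw [← card_univ, card_eq_sum_ones]
  refine sum_congr rfl fun i _ => ?_
  rcases σ i with (_ | _) | n <;> simp

lemma Rank_pS {ι : Type} [Fintype ι] [DecidableEq ι] (σ : ι → Bool ⊕ (E × E)) (m : ι → E × E)
    (a : ι → ZMod 2) : (∏ i ∈ Rank_S true σ, a i) * ∏ i ∈ (Rank_S true σ)ᶜ, Rank_p (σ i) (m i) 0
      = ∏ i, Rank_p (σ i) (m i) (a i) := by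
  rw [← prod_mul_prod_compl (Rank_S true σ)]
  congr 1
  · refine prod_congr rfl fun i hi => ?_
    rw [(mem_filter.1 hi).2, Rank_p]
  · refine prod_congr rfl fun i hi => ?_
    have h : σ i ≠ Sum.inl true := by simpa [Rank_S] using hi
    revert h
    rcases σ i with (_ | _) | n <;> simp [Rank_p]

lemma Rank_qS {ι : Type} [Fintype ι] [DecidableEq ι] (σ : ι → Bool ⊕ (E × E)) (m : ι → E × E)
    (a : ι → ZMod 2) :
    (∏ i ∈ Rank_S false σ, (1 + a i)) * ∏ i ∈ (Rank_S false σ)ᶜ, Rank_q (σ i) (m i) 0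
      = ∏ i, Rank_q (σ i) (m i) (a i) := by
  rw [← prod_mul_prod_compl (Rank_S false σ)]
  congr 1
  · refine prod_congr rfl fun i hi => ?_
    rw [(mem_filter.1 hi).2, Rank_q]
  · refine prod_congr rfl fun i hi => ?_
    have h : σ i ≠ Sum.inl false := by simpa [Rank_S] using hi
    revert h
    rcases σ i with (_ | _) | n <;> simp [Rank_q]

lemma Rank_grp {ι κ : Type} [Fintype ι] [DecidableEq ι] [Fintype κ] {r : ℕ} (S : κ → Finset ι)
    (p : κ → Prop) [DecidablePred p] (u : ℕ) (c : Fin r) (g : Finset ι → ZMod 2)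
    (h : Fin r → Finset ι → κ → ZMod 2) :
    ∑ j : Fin r × lowSets ι u, (if c = j.1 then g j.2 else 0) *
        ∑ σ, (if S σ = j.2 ∧ p σ then h j.1 j.2 σ else 0)
      = ∑ σ, if (S σ).card ≤ u ∧ p σ then g (S σ) * h c (S σ) σ else 0 := by
  rw [Fintype.sum_prod_type, sum_eq_single c (fun b _ hb => by simp [hb.symm]) (by simp)]
  simp only [if_true, mul_sum]
  rw [sum_comm]
  refine sum_congr rfl fun σ _ => ?_
  rw [sum_coe_sort (lowSets ι u) fun T => g T * if S σ = T ∧ p σ then h c T σ else 0]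
  by_cases hp : p σ
  · simp only [hp, and_true, mul_ite, mul_zero, sum_ite_eq, lowSets, mem_filter, mem_univ, true_and]
  · simp [hp]

lemma Rank_main {ι X : Type} [Fintype ι] [DecidableEq ι] [Fintype X] [DecidableEq X] {r : ℕ}
    (M : Fin r → ι → E × E) (c : X → Fin r) (a : X → ι → ZMod 2) (u : ℕ)
    (h : ∀ x y, ∏ i, (1 + a x i + a y i + gain (M (c x) i) (M (c y) i)) = if x = y then 1 else 0) :
    Fintype.card X ≤ 2 * r * (lowSets ι u).card + (fewPairs ι u).card := by
  have key := card_le_of_id (X := X)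
    (J := (Fin r × lowSets ι u) ⊕ (Fin r × lowSets ι u) ⊕ fewPairs ι u)
    (Sum.elim (fun j x => if c x = j.1 then ∏ i ∈ j.2.1, a x i else 0)
      (Sum.elim (fun j x => ∑ σ, if Rank_S false σ = j.2.1 ∧ ¬ (Rank_S true σ).card ≤ u then
          (∏ i ∈ j.2.1ᶜ, Rank_q (σ i) (M j.1 i) 0) * ∏ i, Rank_p (σ i) (M (c x) i) (a x i) else 0)
        fun σ x => if ¬ (Rank_S true σ.1).card ≤ u ∧ ¬ (Rank_S false σ.1).card ≤ u then
          ∏ i, Rank_p (σ.1 i) (M (c x) i) (a x i) else 0))
    (Sum.elim (fun j y => ∑ σ, if Rank_S true σ = j.2.1 ∧ True then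
          (∏ i ∈ j.2.1ᶜ, Rank_p (σ i) (M j.1 i) 0) * ∏ i, Rank_q (σ i) (M (c y) i) (a y i) else 0)
      (Sum.elim (fun j y => if c y = j.1 then ∏ i ∈ j.2.1, (1 + a y i) else 0)
        fun σ y => ∏ i, Rank_q (σ.1 i) (M (c y) i) (a y i))) ?_
  · simp only [Fintype.card_sum, Fintype.card_prod, Fintype.card_fin, Fintype.card_coe] at key
    rw [mul_assoc, two_mul, add_assoc]
    exact key
  · intro x y
    rw [← h x y, Fintype.sum_sum_type, Fintype.sum_sum_type]
    simp only [Sum.elim_inl, Sum.elim_inr]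
    rw [Rank_grp (Rank_S true) (fun _ => True) u (c x) (fun T => ∏ i ∈ T, a x i)
      (fun c0 T σ => (∏ i ∈ Tᶜ, Rank_p (σ i) (M c0 i) 0) * ∏ i, Rank_q (σ i) (M (c y) i) (a y i)),
      sum_congr rfl fun j _ => mul_comm _ _,
      Rank_grp (Rank_S false) (fun σ => ¬ (Rank_S true σ).card ≤ u) u (c y)
        (fun T => ∏ i ∈ T, (1 + a y i))
        (fun c0 T σ => (∏ i ∈ Tᶜ, Rank_q (σ i) (M c0 i) 0) * ∏ i, Rank_p (σ i) (M (c x) i) (a x i)),
      sum_coe_sort (fewPairs ι u) fun σ =>
        (if ¬ (Rank_S true σ).card ≤ u ∧ ¬ (Rank_S false σ).card ≤ u then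
          ∏ i, Rank_p (σ i) (M (c x) i) (a x i) else 0) * ∏ i, Rank_q (σ i) (M (c y) i) (a y i),
      fewPairs, sum_filter, ← sum_add_distrib, ← sum_add_distrib]
    simp only [← Rank_fac]
    rw [Fintype.prod_sum]
    refine sum_congr rfl fun σ _ => ?_
    have h0 := Rank_card σ
    rw [← mul_assoc, ← mul_assoc, Rank_pS, Rank_qS, prod_mul_distrib]
    by_cases h1 : (Rank_S true σ).card ≤ u
    · simp [h1]
    · by_cases h2 : (Rank_S false σ).card ≤ u
      · simp [h1, h2, mul_comm]
      · rw [if_neg (by simp [h1]), if_neg (by simp [h2]), if_pos (by omega), if_pos ⟨h1, h2⟩,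
          zero_add, zero_add]

lemma rank_bound {ι : Type} [Fintype ι] [DecidableEq ι] {A : Finset (ι → E)} (hA : Pack A)
    {r : ℕ} (M : Fin r → ι → E × E) (hM : ∀ c, IsPairing (M c)) (F : Fin r → Finset (ι → E))
    (hFA : ∀ c, F c ⊆ A) (hFM : ∀ c, ∀ B ∈ F c, InCube (M c) B)
    (hd : ∀ c c', c ≠ c' → Disjoint (F c) (F c')) (u : ℕ) :
    ∑ c, (F c).card ≤ 2 * r * (lowSets ι u).card + (fewPairs ι u).card := by
  have key := Rank_main (X := Σ c, F c) M (fun x => x.1) (fun x i => bit (M x.1 i) (x.2.1 i)) u ?_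
  · simpa only [Fintype.card_sigma, Fintype.card_coe] using key
  · rintro ⟨c, B, hB⟩ ⟨c', B', hB'⟩
    split_ifs with h
    · rw [← h]
      refine prod_eq_one fun i _ => ?_
      rw [gain_self, add_zero, add_assoc, CharTwo.add_self_eq_zero, add_zero]
    · have hne : B ≠ B' := by
        rintro rfl
        by_cases hc : c = c'
        · subst hc
          exact h rfl
        · exact disjoint_left.1 (hd c c' hc) hB hB'
      obtain ⟨i, hi⟩ := hA B (hFA c hB) B' (hFA c' hB') hne
      exact prod_eq_zero (mem_univ i)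
        (gain_disj _ _ (hM c i) (hM c' i) _ _ (hFM c B hB i) (hFM c' B' hB' i) hi)

lemma low_le (ι : Type) [Fintype ι] [DecidableEq ι] (u : ℕ) {ρ : ℝ} (h0 : 0 < ρ) (h1 : ρ ≤ 1) :
    ((lowSets ι u).card : ℝ) ≤ (1 + ρ) ^ Fintype.card ι / ρ ^ u := by
  rw [le_div_iff₀ (pow_pos h0 u), ← card_univ, ← prod_const, prod_one_add, powerset_univ,
    ← nsmul_eq_mul, ← sum_const]
  refine le_trans (sum_le_sum fun T hT => ?_)
    (sum_le_sum_of_subset_of_nonneg (subset_univ _) fun T _ _ => prod_nonneg fun _ _ => h0.le)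
  rw [prod_const]
  exact pow_le_pow_of_le_one h0.le h1 (mem_filter.1 hT).2

lemma few_le (ι : Type) [Fintype ι] [DecidableEq ι] (u : ℕ) {θ : ℝ} (h0 : 0 < θ) (h1 : θ ≤ 1) :
    ((fewPairs ι u).card : ℝ)
      ≤ (2 + 100 * θ) ^ Fintype.card ι / θ ^ (Fintype.card ι - 2 * u - 2) := by
  have e : (2 + 100 * θ) ^ Fintype.card ι =
      ∑ σ : ι → Bool ⊕ (E × E), ∏ i, (if (σ i).isRight then θ else 1) := by
    rw [← Fintype.prod_sum fun (_ : ι) (τ : Bool ⊕ (E × E)) => if τ.isRight then θ else 1,
      prod_const, card_univ, Fintype.sum_sum_type]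
    norm_num
  rw [le_div_iff₀ (pow_pos h0 _), e, ← nsmul_eq_mul, ← sum_const]
  refine le_trans (sum_le_sum fun σ hσ => ?_)
    (sum_le_sum_of_subset_of_nonneg (subset_univ _) fun σ _ _ => prod_nonneg fun _ _ => by
      split_ifs <;> linarith)
  rw [← prod_filter, prod_const]
  have := (mem_filter.1 hσ).2
  exact pow_le_pow_of_le_one h0.le h1 (by omega)

end Pool.Agent.Work.MP_85f59e_co.Five
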