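import Pool.Agent.Work.MP_85f59e_co.Asymp
import Pool.Agent.Work.MP_85f59e_co.Five.Defs
import Pool.Agent.Work.MP_85f59e_co.Five.Cover
import Pool.Agent.Work.MP_85f59e_co.Five.Rank

-- merged part: Pool.Agent.Work.MP_85f59e_co.Five.Count
section
/-
Counting the cells of a Latin hypercube of order five that carry a full box in the directions `J`.

Plan.  Group the pairs `(z, s)` by `u = f z`, `s` and the coordinates `b` of `z` outside `J`
(`25 * 5 ^ (d - |J|)` groups; `Equiv.piEquivPiSubtypeProd` or `Finset.card_le_mul_card_image`).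
In a group put `ι = {i // i ∈ J}`, `glue p i = if h : i ∈ J then p ⟨i, h⟩ else b i` and
`S = {p | f (glue p) = u ∨ f (glue p) = s}`.  It is `TwoFold` since `f` is a bijection on every line
(`Latin`, `Latin.surj`) and `u ≠ s`.  A cell `z` of the group gives the box `B z i`, the edge with
points `z i` and `pos f z s i` (`exists_edge`, `pos_ne`); it is inside `S` by `Full` and `alt_mem`
(a point of the box is `T.piecewise (pos f z s) z` for `T` the set of `i ∈ J` where it differs from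
`z`).  A box arises from at most `2 ^ |J|` cells of the group (`card_inc`, `Fintype.card_piFinset`).
-/

namespace Pool.Agent.Work.MP_85f59e_co.Five

open Finset
open Pool.Agent.Work.MP_85f59e_co

lemma Count_group {C β : ℝ}
    (hb : ∀ (ι : Type) [Fintype ι] [DecidableEq ι] (S : Finset (ι → Fin 5)) (A : Finset (ι → E)),
      TwoFold S → (∀ B ∈ A, InS S B) → (A.card : ℝ) ≤ C * β ^ Fintype.card ι)
    {d : ℕ} {f : (Fin d → Fin 5) → Fin 5} (hf : Latin f) (J : Finset (Fin d)) {u s : Fin 5}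
    (hus : s ≠ u) (b : Fin d → Fin 5) (G : Finset (Fin d → Fin 5))
    (hG : ∀ z ∈ G, f z = u ∧ Full f J z s ∧ ∀ i ∉ J, z i = b i) :
    (G.card : ℝ) ≤ 2 ^ J.card * (C * β ^ J.card) := by
  have h1 : ∀ a a' : Fin 5, ∃ e : E, a ≠ a' → ∀ v, inc v e ↔ v = a ∨ v = a' := fun a a' => by
    by_cases h : a = a'
    · exact ⟨0, fun h' => (h' h).elim⟩
    · obtain ⟨e, he⟩ := exists_edge a a' h
      exact ⟨e, fun _ => he⟩
  choose ed hed using h1
  let glue : (J → Fin 5) → Fin d → Fin 5 := fun p i => if h : i ∈ J then p ⟨i, h⟩ else b i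
  let S : Finset (J → Fin 5) := univ.filter fun p => f (glue p) = u ∨ f (glue p) = s
  let B : (Fin d → Fin 5) → J → E := fun z i => ed (z i) (pos f z s i)
  have hB : ∀ z ∈ G, ∀ (i : J) v, inc v (B z i) ↔ v = z i ∨ v = pos f z s i := fun z hz i =>
    hed _ _ (pos_ne hf (by rw [(hG z hz).1]; exact hus) i).symm
  have hS : TwoFold S := fun p i => by
    have e1 : ∀ a, glue (Function.update p i a) = Function.update (glue p) i a := fun a => by
      funext j
      by_cases hj : j = i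
      · subst hj
        simp [glue]
      · rw [Function.update_of_ne hj]
        by_cases h : j ∈ J
        · simp only [glue, dif_pos h]
          exact Function.update_of_ne (fun e => hj (congrArg Subtype.val e)) _ _
        · simp only [glue, dif_neg h]
    have e2 : (univ.filter fun a => Function.update p i a ∈ S) =
        {pos f (glue p) u i, pos f (glue p) s i} := by
      ext a
      simp only [S, mem_filter, mem_univ, true_and, e1, mem_insert, mem_singleton]
      exact or_congr ⟨fun h => (pos_eq hf h).symm, fun h => h ▸ pos_spec hf _ _ _⟩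
        ⟨fun h => (pos_eq hf h).symm, fun h => h ▸ pos_spec hf _ _ _⟩
    rw [e2, card_pair (pos_ne_pos hf hus.symm _)]
  have hA : ∀ B0 ∈ G.image B, InS S B0 := fun B0 h0 p hp => by
    obtain ⟨z, hz, rfl⟩ := mem_image.1 h0
    obtain ⟨k1, k2, k3⟩ := hG z hz
    have e1 : glue p = (J.filter fun i => glue p i ≠ z i).piecewise (pos f z s) z := by
      funext i
      by_cases h : glue p i = z i
      · have h' : i ∉ J.filter fun i => glue p i ≠ z i := fun h' => (mem_filter.1 h').2 h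
        rw [piecewise_eq_of_notMem _ _ _ h', h]
      · have hi : i ∈ J := by
          by_contra hi
          exact h (by simp only [glue, dif_neg hi, k3 i hi])
        have h' : i ∈ J.filter fun i => glue p i ≠ z i := mem_filter.2 ⟨hi, h⟩
        rw [piecewise_eq_of_mem _ _ _ h']
        have e2 : glue p i = p ⟨i, hi⟩ := dif_pos hi
        rw [e2] at h ⊢
        exact ((hB z hz ⟨i, hi⟩ _).1 (hp _)).resolve_left h
    refine mem_filter.2 ⟨mem_univ _, ?_⟩
    rw [e1, k2 _ (filter_subset _ _), k1]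
    exact alt_mem _ _ _
  have h2 := hb J S (G.image B) hS hA
  rw [Fintype.card_coe] at h2
  have h3 : G.card ≤ 2 ^ J.card * (G.image B).card := by
    refine card_le_mul_card_image _ _ fun B0 _ => ?_
    have e1 : (Fintype.piFinset fun i : J => univ.filter fun v => inc v (B0 i)).card =
        2 ^ J.card := by
      simp only [Fintype.card_piFinset, card_inc, prod_const, card_univ, Fintype.card_coe]
    rw [← e1]
    refine card_le_card_of_injOn (fun z i => z i) (fun z hz => ?_) fun z hz z' hz' e => ?_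
    · obtain ⟨k1, k2⟩ := mem_filter.1 hz
      refine Fintype.mem_piFinset.2 fun i => mem_filter.2 ⟨mem_univ _, ?_⟩
      rw [← k2]
      exact (hB z k1 i _).2 (Or.inl rfl)
    · funext i
      by_cases hi : i ∈ J
      · exact congrFun e ⟨i, hi⟩
      · rw [(hG z (mem_filter.1 hz).1).2.2 i hi, (hG z' (mem_filter.1 hz').1).2.2 i hi]
  refine le_trans ?_ (mul_le_mul_of_nonneg_left h2 (by positivity))
  exact_mod_cast h3

lemma full_count {C β : ℝ} (hC : 0 ≤ C) (hβ : 0 ≤ β)
    (hb : ∀ (ι : Type) [Fintype ι] [DecidableEq ι] (S : Finset (ι → Fin 5)) (A : Finset (ι → E)),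
      TwoFold S → (∀ B ∈ A, InS S B) → (A.card : ℝ) ≤ C * β ^ Fintype.card ι)
    {d : ℕ} {f : (Fin d → Fin 5) → Fin 5} (hf : Latin f) (J : Finset (Fin d)) :
    ∑ z, ∑ s ∈ univ.erase (f z), ind (Full f J z s)
      ≤ 25 * C * (5 ^ (d - J.card) * (2 * β) ^ J.card) := by
  classical
  set P : Finset ((Fin d → Fin 5) × Fin 5) :=
    univ.filter fun y => y.2 ≠ f y.1 ∧ Full f J y.1 y.2 with hP
  have h1 : ∑ z, ∑ s ∈ univ.erase (f z), ind (Full f J z s) = (P.card : ℝ) := by
    rw [hP, card_filter, Nat.cast_sum, Fintype.sum_prod_type]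
    refine sum_congr rfl fun z _ => ?_
    rw [← sum_erase (s := univ) (a := f z) (by simp)]
    refine sum_congr rfl fun s hs => ?_
    by_cases h : Full f J z s
    · rw [ind_of h, if_pos ⟨ne_of_mem_erase hs, h⟩, Nat.cast_one]
    · rw [ind_of_not h, if_neg fun h' => h h'.2, Nat.cast_zero]
  let φ : (Fin d → Fin 5) × Fin 5 → Fin 5 × Fin 5 × ({i // i ∉ J} → Fin 5) :=
    fun y => (f y.1, y.2, fun i => y.1 i)
  have h0 : (0 : ℝ) ≤ 2 ^ J.card * (C * β ^ J.card) := by positivity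
  have h2 : ∀ t, ((P.filter fun y => φ y = t).card : ℝ) ≤ 2 ^ J.card * (C * β ^ J.card) := by
    rintro ⟨u, s, b⟩
    by_cases hus : s = u
    · rw [filter_eq_empty_iff.2, card_empty, Nat.cast_zero]
      · exact h0
      · intro y hy e
        simp only [φ, Prod.mk.injEq] at e
        exact (mem_filter.1 hy).2.1 (e.2.1.trans (hus.trans e.1.symm))
    refine le_trans (Nat.cast_le.2 ?_)
      (Count_group hb hf J hus (fun i => if h : i ∈ J then 0 else b ⟨i, h⟩)
        ((P.filter fun y => φ y = (u, s, b)).image Prod.fst) fun z hz => ?_)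
    · refine (card_image_of_injOn fun y hy y' hy' e => Prod.ext e ?_).ge
      have e1 := congrArg (fun t => t.2.1) (mem_filter.1 hy).2
      have e2 := congrArg (fun t => t.2.1) (mem_filter.1 hy').2
      exact e1.trans e2.symm
    · obtain ⟨y, hy, rfl⟩ := mem_image.1 hz
      obtain ⟨k1, k2⟩ := mem_filter.1 hy
      simp only [φ, Prod.mk.injEq] at k2
      refine ⟨k2.1, k2.2.1 ▸ (mem_filter.1 k1).2.2, fun i hi => ?_⟩
      rw [dif_neg hi, ← k2.2.2]
  have h3 : Fintype.card (Fin 5 × Fin 5 × ({i // i ∉ J} → Fin 5)) = 25 * 5 ^ (d - J.card) := by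
    simp only [Fintype.card_prod, Fintype.card_fun, Fintype.card_fin, Fintype.card_subtype_compl,
      Fintype.card_coe]
    ring
  rw [h1, card_eq_sum_card_fiberwise (f := φ) (t := univ) fun _ _ => mem_univ _, Nat.cast_sum]
  refine (sum_le_card_nsmul _ _ _ fun t _ => h2 t).trans (le_of_eq ?_)
  rw [card_univ, h3, nsmul_eq_mul, mul_pow]
  push_cast
  ring

end Pool.Agent.Work.MP_85f59e_co.Five
end

-- merged part: Pool.Agent.Work.MP_85f59e_co.Five.Top
section
/-
The top degree inequality.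

Plan.
* `pack_of_inS`: if `B ≠ B'` had a common point `p` (choose a common point in every coordinate) and
  `B i ≠ B' i`, the line through `p` in direction `i` would hold three points of `S`
  (the union of two different edges has at least three points: `decide`).
* `line_zero`: let `g` have zero sum on every axis line and let `F` not depend on coordinate `i`;
  then the sum of `g * F` vanishes (for instance `Equiv.funSplitAt`, `Equiv.piSplitAt`, or the
  involution `(p, a) ↦ (update p i a, p i)` on pairs as in `Kraft.lean`).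
* `top_pair`: expand the product of `h i (p i) + c i` with `Finset.prod_add`; every term except the
  full one misses a coordinate and vanishes by `line_zero`.
* `top`: put `g p = if p ∈ S then 3 else -2` (zero line sums by `TwoFold`) and
  `ψ e v = (if inc v e then 5 else 0) - 2`.  For `B ∈ A` the sum of `g p * ∏ ψ (B i) (p i)` equals
  `3 * 10 ^ k` (`top_pair`, then `g = 3` on the box, `card_inc`, `Finset.prod_univ_sum`).
  Cauchy-Schwarz (`Finset.sum_mul_sq_le_sq_mul_sq`) with `Φ p = ∑ B ∈ A, ∏ ψ (B i) (p i)` and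
  `∑ g ^ 2 ≤ 9 * 5 ^ k` gives `M ^ 2 * 20 ^ k ≤ ∑ Φ ^ 2`.  Finally `∑ Φ ^ 2` is the double sum of
  `∏ i, ∑ v, ψ (B i) v * ψ (B' i) v`, and the inner sum is `30`, `-20` or `5`, so its absolute value
  is `50 * w (3/5) (2/5) (1/10)`.
-/

namespace Pool.Agent.Work.MP_85f59e_co.Five

open Finset

lemma Top_three : ∀ e f : E, e ≠ f → 3 ≤ (univ.filter fun v => inc v e ∨ inc v f).card := by
  decide

lemma Top_inner : ∀ e f : E, |∑ v, ((if inc v e then (5 : ℤ) else 0) + -2) *
    ((if inc v f then 5 else 0) + -2)| = if e = f then 30 else if disj e f then 20 else 5 := by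
  decide

lemma pack_of_inS {ι : Type} [Fintype ι] [DecidableEq ι] {S : Finset (ι → Fin 5)}
    (hS : TwoFold S) {A : Finset (ι → E)} (hA : ∀ B ∈ A, InS S B) : Pack A := by
  intro B hB B' hB' hne
  by_contra h
  have h1 : ∀ i, ∃ v, inc v (B i) ∧ inc v (B' i) := fun i => by
    by_contra h2
    exact h ⟨i, fun v hv => h2 ⟨v, hv⟩⟩
  choose p hp using h1
  obtain ⟨i, hi⟩ := Function.ne_iff.1 hne
  have h2 : ∀ C ∈ A, (∀ j, inc (p j) (C j)) → ∀ a, inc a (C i) → Function.update p i a ∈ S :=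
    fun C hC h3 a ha => hA C hC _ fun j => by
      by_cases hj : j = i
      · rw [hj, Function.update_self]
        exact ha
      · rw [Function.update_of_ne hj]
        exact h3 j
  have h3 : (univ.filter fun v => inc v (B i) ∨ inc v (B' i)) ⊆
      univ.filter fun a => Function.update p i a ∈ S := fun a ha =>
    mem_filter.2 ⟨mem_univ _, (mem_filter.1 ha).2.elim (h2 B hB (fun j => (hp j).1) a)
      (h2 B' hB' (fun j => (hp j).2) a)⟩
  have h4 := (Top_three _ _ hi).trans (card_le_card h3)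
  rw [hS] at h4
  omega

lemma line_zero {ι : Type} [Fintype ι] [DecidableEq ι] (g F : (ι → Fin 5) → ℝ) (i : ι)
    (hg : ∀ p, ∑ a, g (Function.update p i a) = 0)
    (hF : ∀ p a, F (Function.update p i a) = F p) : ∑ p, g p * F p = 0 := by
  have hinv : Function.Involutive
      fun x : (ι → Fin 5) × Fin 5 => (Function.update x.1 i x.2, x.1 i) := fun x => by
    simp only [Function.update_idem, Function.update_eq_self, Function.update_self]
  have h1 := Equiv.sum_comp hinv.toPerm fun x => g x.1 * F x.1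
  simp only [Function.Involutive.coe_toPerm, Fintype.sum_prod_type, hF, ← sum_mul, hg, zero_mul,
    sum_const_zero, sum_const, card_univ, Fintype.card_fin, nsmul_eq_mul, mul_assoc,
    ← mul_sum] at h1
  exact (mul_eq_zero.1 h1.symm).resolve_left (by norm_num)

lemma top_pair {ι : Type} [Fintype ι] [DecidableEq ι] (g : (ι → Fin 5) → ℝ)
    (hg : ∀ p i, ∑ a, g (Function.update p i a) = 0) (h : ι → Fin 5 → ℝ) (c : ι → ℝ) :
    ∑ p, g p * ∏ i, (h i (p i) + c i) = ∑ p, g p * ∏ i, h i (p i) := by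
  simp only [prod_add, mul_sum]
  rw [sum_comm, sum_eq_single_of_mem univ (mem_powerset_self _) fun t _ ht => ?_]
  · simp only [sdiff_self, bot_eq_empty, prod_empty, mul_one]
  · obtain ⟨i, hi⟩ := not_forall.1 fun h' => ht (eq_univ_of_forall h')
    refine line_zero g _ i (fun p => hg p i) fun p a => ?_
    rw [prod_congr rfl fun j hj => congrArg (h j)
      (Function.update_of_ne (fun e : j = i => hi (e ▸ hj)) a p)]

lemma top {ι : Type} [Fintype ι] [DecidableEq ι] {S : Finset (ι → Fin 5)}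
    (hS : TwoFold S) {A : Finset (ι → E)} (hA : ∀ B ∈ A, InS S B) :
    Ker A (3 / 5) (2 / 5) (1 / 10) ((A.card : ℝ) / (5 / 2) ^ Fintype.card ι)
      (fun B B' => ∏ i, w (3 / 5) (2 / 5) (1 / 10) (B i) (B' i)) := by
  refine ⟨fun B B' => prod_nonneg fun i _ => w_nonneg (by norm_num) (by norm_num) (by norm_num) _ _,
    fun B B' => prod_congr rfl fun i _ => w_comm _ _ _ _ _, fun _ _ _ _ => le_rfl, ?_⟩
  obtain ⟨g, hg⟩ : ∃ g : (ι → Fin 5) → ℝ, ∀ p, g p = if p ∈ S then 3 else -2 := ⟨_, fun _ => rfl⟩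
  obtain ⟨ψ, hψ⟩ : ∃ ψ : E → Fin 5 → ℝ, ∀ e v, ψ e v = (if inc v e then 5 else 0) + -2 :=
    ⟨_, fun _ _ => rfl⟩
  have h1 : ∀ p i, ∑ a, g (Function.update p i a) = 0 := fun p i => by
    have h2 := card_filter_add_card_filter_not (s := univ) fun a => Function.update p i a ∈ S
    rw [hS, card_univ, Fintype.card_fin] at h2
    simp only [hg]
    rw [sum_ite, sum_const, sum_const, hS, show (univ.filter
      fun a => ¬ Function.update p i a ∈ S).card = 3 by omega]
    norm_num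
  have h2 : ∀ B ∈ A, ∑ p, g p * ∏ i, ψ (B i) (p i) = 3 * 10 ^ Fintype.card ι := fun B hB => by
    simp only [hψ]
    rw [top_pair g h1 (fun i v => if inc v (B i) then 5 else 0) fun _ => -2]
    have h3 : ∀ p : ι → Fin 5, g p * ∏ i, (if inc (p i) (B i) then (5 : ℝ) else 0) =
        3 * ∏ i, (if inc (p i) (B i) then (5 : ℝ) else 0) := fun p => by
      by_cases hp : ∀ i, inc (p i) (B i)
      · rw [hg, if_pos (hA B hB p hp)]
      · obtain ⟨i, hi⟩ := not_forall.1 hp
        rw [prod_eq_zero (mem_univ i) (if_neg hi), mul_zero, mul_zero]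
    have h4 : ∀ e : E, ∑ v, (if inc v e then (5 : ℝ) else 0) = 10 := fun e => by
      rw [← sum_filter, sum_const, card_inc]
      norm_num
    simp only [h3]
    rw [← mul_sum, ← Fintype.piFinset_univ,
      ← prod_univ_sum (fun _ => univ) fun i v => if inc v (B i) then (5 : ℝ) else 0]
    simp only [h4, prod_const, card_univ]
  have h3 := sum_mul_sq_le_sq_mul_sq univ g fun p => ∑ B ∈ A, ∏ i, ψ (B i) (p i)
  have h4 : ∑ p, g p * ∑ B ∈ A, ∏ i, ψ (B i) (p i) = A.card * (3 * 10 ^ Fintype.card ι) := by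
    simp only [mul_sum]
    rw [sum_comm, sum_congr rfl h2, sum_const, nsmul_eq_mul]
  have h5 : ∑ p, g p ^ 2 ≤ 9 * 5 ^ Fintype.card ι := by
    refine (sum_le_card_nsmul _ _ 9 fun p _ => ?_).trans (le_of_eq ?_)
    · rw [hg]
      split_ifs <;> norm_num
    · rw [card_univ, Fintype.card_fun, Fintype.card_fin, nsmul_eq_mul, mul_comm]
      norm_num
  have h6 : ∀ e f, |∑ v, ψ e v * ψ f v| = 50 * w (3 / 5) (2 / 5) (1 / 10) e f := fun e f => by
    have h7 := congrArg (Int.cast : ℤ → ℝ) (Top_inner e f)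
    simp only [hψ]
    push_cast at h7
    rw [h7, w]
    split_ifs <;> norm_num
  have h7 : ∑ p : ι → Fin 5, (∑ B ∈ A, ∏ i, ψ (B i) (p i)) ^ 2 ≤ 50 ^ Fintype.card ι *
      ∑ B ∈ A, ∑ B' ∈ A, ∏ i, w (3 / 5) (2 / 5) (1 / 10) (B i) (B' i) := by
    simp only [pow_two, sum_mul_sum, ← prod_mul_distrib]
    rw [sum_comm, mul_sum]
    refine sum_le_sum fun B _ => ?_
    rw [sum_comm, mul_sum]
    refine sum_le_sum fun B' _ => ?_
    rw [← Fintype.piFinset_univ, ← prod_univ_sum (fun _ => univ) fun i v => ψ (B i) v * ψ (B' i) v]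
    refine (le_abs_self _).trans (le_of_eq ?_)
    simp only [abs_prod, h6, prod_mul_distrib, prod_const, card_univ]
  have h8 := h3.trans (mul_le_mul h5 h7 (sum_nonneg fun _ _ => sq_nonneg _) (by positivity))
  rw [h4] at h8
  have e1 : (10 : ℝ) ^ Fintype.card ι * 10 ^ Fintype.card ι * (5 / 2) ^ Fintype.card ι =
      5 ^ Fintype.card ι * 50 ^ Fintype.card ι := by
    rw [← mul_pow, ← mul_pow, ← mul_pow]
    norm_num
  rw [div_mul_eq_mul_div, div_le_iff₀ (by positivity)]
  refine le_of_mul_le_mul_left ?_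
    (show (0 : ℝ) < 9 * (10 ^ Fintype.card ι * 10 ^ Fintype.card ι) by positivity)
  generalize ∑ B ∈ A, ∑ B' ∈ A, ∏ i, w (3 / 5) (2 / 5) (1 / 10) (B i) (B' i) = Z at h8 ⊢
  linear_combination h8 - 9 * Z * e1

end Pool.Agent.Work.MP_85f59e_co.Five
end

-- merged part: Pool.Agent.Work.MP_85f59e_co.Five.Amp
section
/-
Amplification of kernels: tilting (make the weight of meeting edges small) and squaring
(make the weights of equal and of disjoint edges almost equal).

Plan.
* `ker_tilt`: put `L = x / (2 * z) > 1` and choose `N` with `z / L ^ N ≤ z'`; `p = N + 1`.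
  The new kernel is `K B B' / (L ^ N) ^ meets B B'` (`w_tilt` with factor `(L ^ N)⁻¹`, `w_mono`,
  `meets_comm`).  Let `T` be the total mass of `K` and `M` the size of `A`.  By `w_tilt` and `row_le`
  the sum of `K * L ^ meets` is at most `M`.  Apply `jensen_exp` on `A ×ˢ A` twice: with
  `t = meets * log L` it gives `T * exp (m * log L) ≤ M` for the mean `m` of `meets`; with
  `t = - N * meets * log L` it gives that the new mass is at least
  `T * exp (- N * m * log L) ≥ T * (T / M) ^ N ≥ c ^ (N + 1) * M`.  (`A` empty or `c = 0`: trivial.)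
* `ker_sq`: the new kernel is `∑ B' ∈ A, K B B' * K B' B''`; `comp_le` for the bound; its mass is the
  sum of the squares of the row sums, at least `T ^ 2 / M` (`sq_sum_le_card_mul_sum_sq`).
* `ker_all`: induction on the number `n` of squarings.  Invariant: `x + y = 1`, `0 < y < x`,
  `x - y = (1/5) ^ (2 ^ n)` (or just `≤ (1/5) ^ (n + 1)`), `0 < z`, `2 * z < x`.  Before a squaring
  tilt to `z' = min (y / 2) ((x - y) / 8)`; then `2 * (y ^ 2 + x * z' + z' ^ 2) < x ^ 2 + y ^ 2`.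
  Finish with one more tilt to this `z'`.
-/

namespace Pool.Agent.Work.MP_85f59e_co.Five

open Finset

lemma Amp_jensen {α : Type} (s : Finset α) (a : α → ℝ) (n : α → ℕ) (ha : ∀ i ∈ s, 0 ≤ a i)
    (hT : 0 < ∑ i ∈ s, a i) {r : ℝ} (hr : 0 < r) :
    (∑ i ∈ s, a i) * Real.exp ((∑ i ∈ s, a i * n i) / (∑ i ∈ s, a i) * Real.log r)
      ≤ ∑ i ∈ s, a i * r ^ n i := by
  have h := jensen_exp s a (fun i => n i * Real.log r) ha hT
  have e1 : ∑ i ∈ s, a i * (n i * Real.log r) = (∑ i ∈ s, a i * n i) * Real.log r := by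
    rw [sum_mul]
    exact sum_congr rfl fun i _ => by ring
  have e2 : ∀ i, Real.exp (n i * Real.log r) = r ^ n i := fun i => by
    rw [Real.exp_nat_mul, Real.exp_log hr]
  simp only [e1, e2] at h
  rwa [div_mul_eq_mul_div]

lemma ker_tilt {x y z z' : ℝ} (hxy : x + y = 1) (hy : 0 ≤ y) (hz : 0 < z) (hzx : 2 * z < x)
    (hz' : 0 < z') :
    ∃ p : ℕ, ∀ (ι : Type) [Fintype ι] [DecidableEq ι] (A : Finset (ι → E)) (c : ℝ)
      (K : (ι → E) → (ι → E) → ℝ), Pack A → 0 ≤ c → Ker A x y z c K →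
      ∃ K', Ker A x y z' (c ^ p) K' := by
  have hx : 0 < x := by linarith
  set L := x / (2 * z) with hL
  have hL1 : 1 < L := (one_lt_div (by positivity)).2 hzx
  have hL0 : 0 < L := by linarith
  have hzL : 2 * (z * L) = x := by rw [hL]; field_simp
  obtain ⟨N, hN⟩ := pow_unbounded_of_one_lt (z / z') hL1
  have hN0 : 0 < L ^ N := pow_pos hL0 N
  have hN' : z * (L ^ N)⁻¹ ≤ z' := by
    rw [← div_eq_mul_inv, div_le_iff₀ hN0, mul_comm]
    exact ((div_lt_iff₀ hz').1 hN).le
  refine ⟨N + 1, fun ι _ _ A c K hA hc hK => ⟨fun B B' => K B B' * (L ^ N)⁻¹ ^ meets B B',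
    fun B B' => mul_nonneg (hK.nonneg B B') (by positivity),
    fun B B' => by rw [hK.symm, meets_comm], fun B hB B' hB' => ?_, ?_⟩⟩
  · refine (mul_le_mul_of_nonneg_right (hK.le B hB B' hB') (by positivity)).trans ?_
    rw [w_tilt]
    exact prod_le_prod (fun i _ => w_nonneg hx.le hy (by positivity) _ _) fun i _ => w_mono hN' _ _
  · have hb := hK.big
    rw [← sum_product'] at hb ⊢
    have ha : ∀ p ∈ A ×ˢ A, 0 ≤ K p.1 p.2 := fun p _ => hK.nonneg _ _
    have hcN : 0 ≤ c ^ N := pow_nonneg hc N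
    rcases (sum_nonneg ha).eq_or_lt with h0 | hT
    · rw [← h0] at hb
      refine le_trans ?_ (sum_nonneg fun p hp => mul_nonneg (ha p hp) (by positivity))
      rw [pow_succ, mul_assoc]
      exact mul_nonpos_of_nonneg_of_nonpos hcN hb
    · have j1 := Amp_jensen (A ×ˢ A) (fun p => K p.1 p.2) (fun p => meets p.1 p.2) ha hT hL0
      have j2 := Amp_jensen (A ×ˢ A) (fun p => K p.1 p.2) (fun p => meets p.1 p.2) ha hT
        (inv_pos.2 hN0)
      have hM : ∑ p ∈ A ×ˢ A, K p.1 p.2 * L ^ meets p.1 p.2 ≤ A.card := by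
        rw [sum_product' A A fun B B' => K B B' * L ^ meets B B', card_eq_sum_ones, Nat.cast_sum]
        refine sum_le_sum fun B hB => ?_
        have h1 := row_le hA (x := x) (y := y) (z := z * L) hy (by positivity) hzL.le B
        rw [hxy, one_pow] at h1
        rw [Nat.cast_one]
        refine le_trans (sum_le_sum fun B' hB' => ?_) h1
        rw [← w_tilt]
        exact mul_le_mul_of_nonneg_right (hK.le B hB B' hB') (by positivity)
      refine le_trans ?_ j2
      rw [Real.log_inv, Real.log_pow, mul_neg, Real.exp_neg, mul_left_comm _ (N : ℝ),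
        Real.exp_nat_mul]
      have h2 := j1.trans hM
      generalize Real.exp_pos ((∑ p ∈ A ×ˢ A, K p.1 p.2 * (meets p.1 p.2 : ℝ)) /
        (∑ p ∈ A ×ˢ A, K p.1 p.2) * Real.log L) = he
      generalize Real.exp ((∑ p ∈ A ×ˢ A, K p.1 p.2 * (meets p.1 p.2 : ℝ)) /
        (∑ p ∈ A ×ˢ A, K p.1 p.2) * Real.log L) = e at h2 he
      generalize ∑ p ∈ A ×ˢ A, K p.1 p.2 = T at hb hT h2
      have hM0 : (0 : ℝ) < A.card := (mul_pos hT he).trans_le h2
      have h3 : c * e ≤ 1 := by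
        refine le_of_mul_le_mul_right ?_ hM0
        calc c * e * A.card = c * A.card * e := by ring
          _ ≤ T * e := mul_le_mul_of_nonneg_right hb he.le
          _ ≤ 1 * A.card := by rwa [one_mul]
      have h4 : c ^ N ≤ (e ^ N)⁻¹ := by
        rw [← one_div, le_div_iff₀ (pow_pos he N), ← mul_pow]
        exact pow_le_one₀ (mul_nonneg hc he.le) h3
      calc c ^ (N + 1) * A.card = c * A.card * c ^ N := by ring
        _ ≤ T * (e ^ N)⁻¹ := mul_le_mul hb h4 hcN hT.le

lemma ker_sq {ι : Type} [Fintype ι] [DecidableEq ι] {A : Finset (ι → E)} (hA : Pack A)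
    {x y z c : ℝ} (hz : 0 ≤ z) (hzy : 2 * z ≤ y) (hyx : y ≤ x) (hc : 0 ≤ c)
    {K : (ι → E) → (ι → E) → ℝ} (hK : Ker A x y z c K) :
    Ker A (x ^ 2 + y ^ 2) (2 * x * y) (y ^ 2 + x * z + z ^ 2) (c ^ 2)
      (fun B B'' => ∑ B' ∈ A, K B B' * K B' B'') := by
  refine ⟨fun B B'' => sum_nonneg fun B' _ => mul_nonneg (hK.nonneg _ _) (hK.nonneg _ _),
    fun B B'' => sum_congr rfl fun B' _ => by rw [hK.symm B B', hK.symm B' B'', mul_comm],
    fun B hB B'' hB'' => le_trans (sum_le_sum fun B' hB' => ?_) (comp_le hA hz hzy hyx B B''), ?_⟩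
  · exact mul_le_mul (hK.le B hB B' hB') (hK.le B' hB' B'' hB'') (hK.nonneg _ _)
      ((hK.nonneg _ _).trans (hK.le B hB B' hB'))
  · have e : ∑ B ∈ A, ∑ B'' ∈ A, ∑ B' ∈ A, K B B' * K B' B'' =
        ∑ B' ∈ A, (∑ B ∈ A, K B' B) ^ 2 := by
      simp only [sq, sum_mul_sum]
      rw [sum_congr rfl fun B _ => sum_comm, sum_comm]
      exact sum_congr rfl fun B' _ => sum_congr rfl fun B _ => sum_congr rfl fun B'' _ => by
        rw [hK.symm B B']
    rw [e]
    have h1 := sq_sum_le_card_mul_sum_sq (s := A) (f := fun B' => ∑ B ∈ A, K B' B)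
    have h2 : (c * A.card) ^ 2 ≤ (∑ B' ∈ A, ∑ B ∈ A, K B' B) ^ 2 :=
      pow_le_pow_left₀ (by positivity) hK.big 2
    rcases (Nat.cast_nonneg (α := ℝ) A.card).eq_or_lt with h0 | h0
    · rw [← h0, mul_zero]
      exact sum_nonneg fun _ _ => sq_nonneg _
    · refine le_of_mul_le_mul_left ?_ h0
      calc (A.card : ℝ) * (c ^ 2 * A.card) = (c * A.card) ^ 2 := by ring
        _ ≤ _ := h2.trans h1

lemma Amp_small {x y : ℝ} (hxy : x + y = 1) (hy : 0 < y) (hyx : y < x) :
    ∃ z : ℝ, 0 < z ∧ 2 * z ≤ y ∧ 2 * (y ^ 2 + x * z + z ^ 2) < x ^ 2 + y ^ 2 := by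
  have h1 := min_le_left (y / 2) ((x - y) / 8)
  have h2 := min_le_right (y / 2) ((x - y) / 8)
  have h3 : 0 < min (y / 2) ((x - y) / 8) := lt_min (by linarith) (by linarith)
  refine ⟨_, h3, by linarith, ?_⟩
  generalize min (y / 2) ((x - y) / 8) = z at h1 h2 h3
  have h4 : z * (x + z) ≤ z * 1 := mul_le_mul_of_nonneg_left (by linarith) h3.le
  have h5 : x ^ 2 - y ^ 2 = x - y := by
    rw [sq_sub_sq, hxy, one_mul]
  nlinarith

lemma Amp_ind (n : ℕ) :
    ∃ (x y z : ℝ) (p : ℕ), x + y = 1 ∧ 0 < y ∧ y < x ∧ x - y ≤ (1 / 5) ^ (n + 1) ∧ 0 < z ∧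
      2 * z < x ∧
      ∀ (ι : Type) [Fintype ι] [DecidableEq ι] (A : Finset (ι → E)) (c : ℝ)
        (K : (ι → E) → (ι → E) → ℝ), Pack A → 0 ≤ c → Ker A (3 / 5) (2 / 5) (1 / 10) c K →
        ∃ K', Ker A x y z (c ^ p) K' := by
  induction n with
  | zero =>
    refine ⟨3 / 5, 2 / 5, 1 / 10, 1, by norm_num, by norm_num, by norm_num, by norm_num,
      by norm_num, by norm_num, fun ι _ _ A c K _ _ hK => ⟨K, by rwa [pow_one]⟩⟩
  | succ n ih =>
    obtain ⟨x, y, z, p, hxy, hy, hyx, hd, hz, hzx, H⟩ := ih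
    obtain ⟨z', h1, h2, h3⟩ := Amp_small hxy hy hyx
    obtain ⟨q, hq⟩ := ker_tilt hxy hy.le hz hzx h1
    have hx : 0 < x := hy.trans hyx
    have hd0 : 0 < x - y := sub_pos.2 hyx
    have h5 : ((1 : ℝ) / 5) ^ (n + 1) ≤ 1 / 5 := by
      rw [pow_succ]
      exact mul_le_of_le_one_left (by norm_num) (pow_le_one₀ (by norm_num) (by norm_num))
    refine ⟨x ^ 2 + y ^ 2, 2 * x * y, y ^ 2 + x * z' + z' ^ 2, p * q * 2, ?_, by positivity, ?_, ?_,
      by positivity, h3, fun ι _ _ A c K hA hc hK => ?_⟩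
    · calc x ^ 2 + y ^ 2 + 2 * x * y = (x + y) ^ 2 := by ring
        _ = 1 := by rw [hxy, one_pow]
    · nlinarith [mul_pos hd0 hd0]
    · calc x ^ 2 + y ^ 2 - 2 * x * y = (x - y) * (x - y) := by ring
        _ ≤ (1 / 5) ^ (n + 1) * (1 / 5) := mul_le_mul hd (hd.trans h5) hd0.le (by positivity)
        _ = _ := (pow_succ _ _).symm
    · obtain ⟨K1, hK1⟩ := H ι A c K hA hc hK
      obtain ⟨K2, hK2⟩ := hq ι A _ K1 hA (pow_nonneg hc p) hK1
      have := ker_sq hA h1.le h2 hyx.le (pow_nonneg (pow_nonneg hc p) q) hK2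
      rw [← pow_mul, ← pow_mul, ← mul_assoc] at this
      exact ⟨_, this⟩

lemma ker_all {t : ℝ} (ht : 0 < t) :
    ∃ (x y z : ℝ) (p : ℕ), x + y = 1 ∧ y < x ∧ x ≤ 1 / 2 + t ∧ 0 < z ∧ 2 * z ≤ y ∧
      2 * (y ^ 2 + x * z + z ^ 2) < x ^ 2 + y ^ 2 ∧
      ∀ (ι : Type) [Fintype ι] [DecidableEq ι] (A : Finset (ι → E)) (c : ℝ)
        (K : (ι → E) → (ι → E) → ℝ), Pack A → 0 ≤ c → Ker A (3 / 5) (2 / 5) (1 / 10) c K →
        ∃ K', Ker A x y z (c ^ p) K' := by
  obtain ⟨n, hn⟩ := exists_pow_lt_of_lt_one ht (show (1 : ℝ) / 5 < 1 by norm_num)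
  obtain ⟨x, y, z, p, hxy, hy, hyx, hd, hz, hzx, H⟩ := Amp_ind n
  obtain ⟨z', h1, h2, h3⟩ := Amp_small hxy hy hyx
  obtain ⟨q, hq⟩ := ker_tilt hxy hy.le hz hzx h1
  have h5 : ((1 : ℝ) / 5) ^ (n + 1) ≤ (1 / 5) ^ n :=
    pow_le_pow_of_le_one (by norm_num) (by norm_num) n.le_succ
  refine ⟨x, y, z', p * q, hxy, hyx, by linarith, h1, h2, h3, fun ι _ _ A c K hA hc hK => ?_⟩
  obtain ⟨K1, hK1⟩ := H ι A c K hA hc hK
  rw [pow_mul]
  exact hq ι A _ K1 hA (pow_nonneg hc p) hK1

end Pool.Agent.Work.MP_85f59e_co.Five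
end

-- merged part: Pool.Agent.Work.MP_85f59e_co.Five.Cube
section
/-
Two tools for finding a dense cube.

Plan.
* `cube_sum`: send `B'` to the pattern `τ : ι → Option E`, `τ i = none` if `B' i` is an edge of
  `M i` and `some (B' i)` otherwise.  A fibre lies in the cube of the pairing which is `M i` where
  `τ i = none` and `(e, f)` with `disj e f` (`exists_disj`) where `τ i = some e`; so it has at most
  `n` elements.  The weight is the product of `1` (none) and `θ` (some); the sum over all patterns is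
  `(1 + 10 * θ) ^ k` (`Finset.prod_univ_sum`, `Finset.sum_fiberwise`, `Fintype.sum_option`).
* `partner`: in coordinate `i` let `q e` be the `ν`-mass of the `B'` with `B' i = e` and take for
  `P i` an edge disjoint from `B i` with the largest `q` (`Finset.exists_max_image`).  Let `Q` be
  the mass of the `B'` with `B' i` disjoint from `B i`, and `r = Q - q (P i)`.  For each `B''` with
  `B'' i` disjoint from `B i`, the `B'` with `B' i` disjoint from `B i` and different from `B'' i`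
  have mass at least `r` and meet `B'' i` (`tri_not_disj`).  So `r ^ 2 ≤ Q * r ≤ m i`, the double
  mass of meeting pairs in coordinate `i`, and `r ≤ s + m i / s`.  Sum over `i`
  (`exc` and `meets` are sums of indicators: `Finset.card_filter`, `Finset.sum_comm`).
-/

namespace Pool.Agent.Work.MP_85f59e_co.Five

open Finset

/-- number of coordinates in which the box leaves the pairing `M` -/
def exc {ι : Type} [Fintype ι] (M : ι → E × E) (B : ι → E) : ℕ :=
  (univ.filter fun i => B i ≠ (M i).1 ∧ B i ≠ (M i).2).card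

lemma cube_sum {ι : Type} [Fintype ι] [DecidableEq ι] (A : Finset (ι → E)) (n : ℕ)
    (hn : ∀ M : ι → E × E, IsPairing M → (A.filter (InCube M)).card ≤ n)
    {M : ι → E × E} (hM : IsPairing M) {θ : ℝ} (hθ : 0 ≤ θ) :
    ∑ B ∈ A, θ ^ exc M B ≤ n * (1 + 10 * θ) ^ Fintype.card ι := by
  choose d hd using exists_disj
  let τ : (ι → E) → ι → Option E := fun B i =>
    if B i ≠ (M i).1 ∧ B i ≠ (M i).2 then some (B i) else none
  let wt : Option E → ℝ := fun o => o.elim 1 fun _ => θ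
  have hw : ∀ o, 0 ≤ wt o := fun o => by
    cases o
    · exact zero_le_one
    · exact hθ
  have h1 : ∀ B, θ ^ exc M B = ∏ i, wt (τ B i) := fun B => by
    rw [exc, ← prod_const, prod_filter]
    refine prod_congr rfl fun i _ => ?_
    simp only [τ]
    split_ifs <;> rfl
  have h2 : ∀ t : ι → Option E, (A.filter fun B => τ B = t).card ≤ n := fun t => by
    refine le_trans (card_le_card fun B hB => ?_)
      (hn (fun i => (t i).elim (M i) fun e => (e, d e)) fun i => ?_)
    · obtain ⟨h3, rfl⟩ := mem_filter.1 hB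
      refine mem_filter.2 ⟨h3, fun i => ?_⟩
      simp only [τ]
      split_ifs with h
      · exact Or.inl rfl
      · exact by_contra fun h4 => h (not_or.1 h4)
    · beta_reduce
      cases t i
      · exact hM i
      · exact hd _
  have h3 : ∑ o, wt o = 1 + 10 * θ := by simp [wt, Fintype.sum_option]
  simp only [h1]
  rw [← sum_fiberwise' A τ fun t => ∏ i, wt (t i), ← h3, ← card_univ, ← prod_const,
    Fintype.prod_sum fun _ o => wt o, mul_sum]
  refine sum_le_sum fun t _ => ?_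
  rw [sum_const, nsmul_eq_mul]
  exact mul_le_mul_of_nonneg_right (Nat.cast_le.2 (h2 t)) (prod_nonneg fun i _ => hw _)

lemma Cube_one {α : Type} (A : Finset α) (g : α → E) (e : E) (ν : α → ℝ) (hν : ∀ a, 0 ≤ ν a)
    {s : ℝ} (hs : 0 < s) : ∃ P, disj e P ∧
      ∑ a ∈ A, ν a * (if g a ≠ e ∧ g a ≠ P then 1 else 0) ≤
        ∑ a ∈ A, ν a * (if e ≠ g a ∧ ¬ disj e (g a) then 1 else 0) + s +
          (∑ a ∈ A, ∑ b ∈ A, ν a * ν b * if g a ≠ g b ∧ ¬ disj (g a) (g b) then 1 else 0) / s := by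
  obtain ⟨q, hq⟩ : ∃ q : E → ℝ,
    ∀ f, q f = ∑ a ∈ A, ν a * if disj e (g a) ∧ g a ≠ f then 1 else 0 := ⟨_, fun _ => rfl⟩
  obtain ⟨P, h1, h2⟩ := exists_min_image (univ.filter (disj e)) q
    ((exists_disj e).imp fun f hf => mem_filter.2 ⟨mem_univ _, hf⟩)
  refine ⟨P, (mem_filter.1 h1).2, ?_⟩
  have a1 : ∑ a ∈ A, ν a * (if g a ≠ e ∧ g a ≠ P then 1 else 0) ≤
      ∑ a ∈ A, ν a * (if e ≠ g a ∧ ¬ disj e (g a) then 1 else 0) + q P := by
    rw [hq, ← sum_add_distrib]
    refine sum_le_sum fun a _ => ?_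
    rw [← mul_add]
    refine mul_le_mul_of_nonneg_left ?_ (hν a)
    split_ifs with b1 b2 b3 b3 <;> try norm_num
    exact b2 ⟨b1.1.symm, fun h => b3 ⟨h, b1.2⟩⟩
  have a2 : q P * q P ≤
      ∑ a ∈ A, ∑ b ∈ A, ν a * ν b * if g a ≠ g b ∧ ¬ disj (g a) (g b) then 1 else 0 := by
    nth_rw 1 [hq]
    rw [sum_mul]
    refine sum_le_sum fun a _ => ?_
    simp only [mul_assoc, ← mul_sum]
    refine mul_le_mul_of_nonneg_left ?_ (hν a)
    split_ifs with b1
    · rw [one_mul]
      refine (h2 (g a) (mem_filter.2 ⟨mem_univ _, b1.1⟩)).trans ?_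
      rw [hq]
      refine sum_le_sum fun b _ => mul_le_mul_of_nonneg_left ?_ (hν b)
      split_ifs with b2 b3 <;> try norm_num
      exact b3 ⟨b2.2.symm, tri_not_disj e _ _ b1.1 b2.1⟩
    · rw [zero_mul]
      exact sum_nonneg fun b _ => mul_nonneg (hν b) (by split_ifs <;> norm_num)
  have a3 : q P - s ≤ q P * q P / s := by
    rw [le_div_iff₀ hs]
    nlinarith [sq_nonneg (q P - s), sq_nonneg (q P), sq_nonneg s]
  linarith [div_le_div_of_nonneg_right a2 hs.le]

lemma partner {ι : Type} [Fintype ι] [DecidableEq ι] (A : Finset (ι → E)) (B : ι → E)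
    (ν : (ι → E) → ℝ) (hν : ∀ B', 0 ≤ ν B') {s : ℝ} (hs : 0 < s) :
    ∃ P : ι → E, (∀ i, disj (B i) (P i)) ∧
      ∑ B' ∈ A, ν B' * (exc (fun i => (B i, P i)) B' : ℝ)
        ≤ ∑ B' ∈ A, ν B' * (meets B B' : ℝ) + s * Fintype.card ι
          + (∑ B' ∈ A, ∑ B'' ∈ A, ν B' * ν B'' * (meets B' B'' : ℝ)) / s := by
  choose P h1 h2 using fun i => Cube_one A (fun B' => B' i) (B i) ν hν hs
  refine ⟨P, h1, ?_⟩
  have h3 := sum_le_sum fun i (_ : i ∈ univ) => h2 i
  rw [sum_add_distrib, sum_add_distrib, sum_const, card_univ, nsmul_eq_mul, mul_comm _ s,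
    ← sum_div, sum_comm, sum_comm (s := univ), sum_comm (s := univ)] at h3
  simp only [exc, meets, card_filter, Nat.cast_sum, Nat.cast_ite, Nat.cast_one, Nat.cast_zero,
    mul_sum]
  refine h3.trans (le_of_eq ?_)
  congr 2
  exact sum_congr rfl fun _ _ => sum_comm

end Pool.Agent.Work.MP_85f59e_co.Five
end

-- merged part: Pool.Agent.Work.MP_85f59e_co.Five.Cluster
section
/-
A kernel of large mass forces a dense cube.

Plan for `good_row`.  `d B` is the row sum, `κ B = ∑ B' B'', K B B' * K B B'' * L ^ meets B' B''`.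
By symmetry, `comp_le`, `w_tilt` and `row_le` (with `x ^ 2 + y ^ 2 + 2 * x * y = 1`) the sum of
`κ B` over `A` is at most the size `M` of `A`, while the sum of `d B` is at least `c * M`.  So some
`B` has `c / 2 + c / 2 * κ B ≤ d B` (`Finset.exists_le_of_sum_le`).  The other two bounds are
`row_le` (with `w_tilt`).

Plan for `cluster`.  Take `L > 1` with `2 * (z * L) ≤ x` and
`2 * ((y ^ 2 + x * z + z ^ 2) * L) ≤ x ^ 2 + y ^ 2`, then `θ ∈ (0, 1)` with `x * (1 + 10 * θ) < x'`,
then `δ > 0` with `x * (1 + 10 * θ) * exp (δ * log (1 / θ)) ≤ x'`, and `P ≥ 1 + (1 + 2 / δ) * log (1 / θ) / log L`.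
With `B` from `good_row`, `ν = K B`, `d = d B`, `h = log (2 / c) ≥ log 2`:
`jensen_exp` gives `∑ ν * meets B ≤ d * log (1 / d) / log L ≤ d * h / log L` and
`∑ ∑ ν * ν * meets ≤ d ^ 2 * log (κ / d ^ 2) / log L ≤ d ^ 2 * 2 * h / log L` (as `κ ≤ 2 * d / c`).
`partner` with `s = δ * d` bounds the mean of `exc` by `δ * k + (1 + 2 / δ) * h / log L`, and
`jensen_exp` with `t = exc * log θ` bounds `∑ ν * θ ^ exc` from below by
`d * exp (- log (1 / θ) * mean)`.  From above it is at most `x ^ k * n * (1 + 10 * θ) ^ k`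
(`w_le`, `cube_sum`).  Finally `(c / 2) ^ P = exp (- P * h)`.
-/

namespace Pool.Agent.Work.MP_85f59e_co.Five

open Finset

lemma Cluster_row {ι : Type} [Fintype ι] [DecidableEq ι] {A : Finset (ι → E)} (hA : Pack A)
    {x y z L : ℝ} (hxy : x + y = 1) (hy : 0 ≤ y) (hz : 0 ≤ z) (hL : 0 ≤ L)
    (hL1 : 2 * (z * L) ≤ x) (B : ι → E) (k : (ι → E) → ℝ)
    (hk : ∀ B' ∈ A, k B' ≤ ∏ i, w x y z (B i) (B' i)) :
    ∑ B' ∈ A, k B' * L ^ meets B B' ≤ 1 := by
  calc ∑ B' ∈ A, k B' * L ^ meets B B'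
      ≤ ∑ B' ∈ A, ∏ i, w x y (z * L) (B i) (B' i) := by
        refine sum_le_sum fun B' hB' => ?_
        rw [← w_tilt]
        exact mul_le_mul_of_nonneg_right (hk B' hB') (pow_nonneg hL _)
    _ ≤ (x + y) ^ Fintype.card ι := row_le hA hy (mul_nonneg hz hL) hL1 B
    _ = 1 := by rw [hxy, one_pow]

lemma good_row {ι : Type} [Fintype ι] [DecidableEq ι] {A : Finset (ι → E)} (hA : Pack A)
    (hne : A.Nonempty) {x y z c L : ℝ} (hxy : x + y = 1) (hyx : y ≤ x) (hz : 0 ≤ z)
    (hzy : 2 * z ≤ y) (hL : 1 ≤ L) (hL1 : 2 * (z * L) ≤ x)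
    (hL2 : 2 * ((y ^ 2 + x * z + z ^ 2) * L) ≤ x ^ 2 + y ^ 2) (hc : 0 ≤ c)
    {K : (ι → E) → (ι → E) → ℝ} (hK : Ker A x y z c K) :
    ∃ B ∈ A, c / 2 + c / 2 * (∑ B' ∈ A, ∑ B'' ∈ A, K B B' * K B B'' * L ^ meets B' B'')
        ≤ ∑ B' ∈ A, K B B' ∧
      ∑ B' ∈ A, K B B' ≤ 1 ∧ ∑ B' ∈ A, K B B' * L ^ meets B B' ≤ 1 := by
  have hy : 0 ≤ y := by linarith
  have hx : 0 ≤ x := by linarith
  have hL0 : 0 ≤ L := by linarith
  have hκ : ∑ B ∈ A, (∑ B' ∈ A, ∑ B'' ∈ A, K B B' * K B B'' * L ^ meets B' B'')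
      ≤ (A.card : ℝ) := by
    have e1 : ∑ B ∈ A, (∑ B' ∈ A, ∑ B'' ∈ A, K B B' * K B B'' * L ^ meets B' B'')
        = ∑ B' ∈ A, ∑ B'' ∈ A, (∑ B ∈ A, K B B' * K B B'') * L ^ meets B' B'' := by
      rw [sum_comm]
      refine sum_congr rfl fun B' _ => ?_
      rw [sum_comm]
      refine sum_congr rfl fun B'' _ => ?_
      rw [sum_mul]
    rw [e1]
    have e2 : (A.card : ℝ) = ∑ _B' ∈ A, (1 : ℝ) := by simp
    rw [e2]
    refine sum_le_sum fun B' hB' => ?_
    refine Cluster_row (x := x ^ 2 + y ^ 2) (y := 2 * x * y) (z := y ^ 2 + x * z + z ^ 2) hA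
      ?_ (by positivity) (by positivity) hL0 hL2 B' (fun B'' => ∑ B ∈ A, K B B' * K B B'') ?_
    · have : x ^ 2 + y ^ 2 + 2 * x * y = (x + y) ^ 2 := by ring
      rw [this, hxy, one_pow]
    · intro B'' hB''
      refine le_trans (sum_le_sum fun B hB => ?_) (comp_le hA hz hzy hyx B' B'')
      refine mul_le_mul ?_ (hK.le B hB B'' hB'') (hK.nonneg _ _)
        (prod_nonneg fun i _ => w_nonneg hx hy hz _ _)
      rw [hK.symm]
      exact hK.le B' hB' B hB
  have hsum : ∑ B ∈ A, (c / 2 + c / 2 *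
      (∑ B' ∈ A, ∑ B'' ∈ A, K B B' * K B B'' * L ^ meets B' B''))
      ≤ ∑ B ∈ A, ∑ B' ∈ A, K B B' := by
    rw [sum_add_distrib, ← mul_sum, sum_const, nsmul_eq_mul]
    have h1 := mul_le_mul_of_nonneg_left hκ (show 0 ≤ c / 2 by linarith)
    have h2 := hK.big
    linarith
  obtain ⟨B, hB, h⟩ := exists_le_of_sum_le hne hsum
  refine ⟨B, hB, h, ?_, Cluster_row hA hxy hy hz hL0 hL1 B (K B) (hK.le B hB)⟩
  have := Cluster_row hA hxy hy hz zero_le_one (by linarith) B (K B) (hK.le B hB)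
  simpa using this

lemma Cluster_jensen {α : Type} (s : Finset α) (a : α → ℝ) (m : α → ℕ) (ha : ∀ i ∈ s, 0 ≤ a i)
    (hT : 0 < ∑ i ∈ s, a i) {L R : ℝ} (hL : 1 < L)
    (h : ∑ i ∈ s, a i * L ^ m i ≤ (∑ i ∈ s, a i) * Real.exp R) :
    ∑ i ∈ s, a i * (m i : ℝ) ≤ (∑ i ∈ s, a i) * R / Real.log L := by
  have hl : 0 < Real.log L := Real.log_pos hL
  have h1 := jensen_exp s a (fun i => (m i : ℝ) * Real.log L) ha hT
  have h2 : ∑ i ∈ s, a i * Real.exp ((m i : ℝ) * Real.log L) = ∑ i ∈ s, a i * L ^ m i :=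
    sum_congr rfl fun i _ => by
      rw [Real.exp_nat_mul, Real.exp_log (by linarith)]
  rw [h2] at h1
  have h3 := Real.exp_le_exp.1 (le_of_mul_le_mul_left (h1.trans h) hT)
  have h4 : ∑ i ∈ s, a i * ((m i : ℝ) * Real.log L)
      = (∑ i ∈ s, a i * (m i : ℝ)) * Real.log L := by
    rw [sum_mul]
    exact sum_congr rfl fun i _ => by ring
  rw [h4, div_le_iff₀ hT] at h3
  rw [le_div_iff₀ hl]
  linarith

lemma Cluster_low {α : Type} (s : Finset α) (a : α → ℝ) (m : α → ℕ) (ha : ∀ i ∈ s, 0 ≤ a i)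
    (hT : 0 < ∑ i ∈ s, a i) {θ R : ℝ} (h0 : 0 < θ) (h1 : θ < 1)
    (h : ∑ i ∈ s, a i * (m i : ℝ) ≤ (∑ i ∈ s, a i) * R) :
    (∑ i ∈ s, a i) * Real.exp (R * Real.log θ) ≤ ∑ i ∈ s, a i * θ ^ m i := by
  have hl : Real.log θ < 0 := Real.log_neg h0 h1
  have h2 := jensen_exp s a (fun i => (m i : ℝ) * Real.log θ) ha hT
  have h3 : ∑ i ∈ s, a i * Real.exp ((m i : ℝ) * Real.log θ) = ∑ i ∈ s, a i * θ ^ m i :=
    sum_congr rfl fun i _ => by
      rw [Real.exp_nat_mul, Real.exp_log h0]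
  rw [h3] at h2
  refine le_trans (mul_le_mul_of_nonneg_left (Real.exp_le_exp.2 ?_) hT.le) h2
  have h4 : ∑ i ∈ s, a i * ((m i : ℝ) * Real.log θ)
      = (∑ i ∈ s, a i * (m i : ℝ)) * Real.log θ := by
    rw [sum_mul]
    exact sum_congr rfl fun i _ => by ring
  rw [h4, le_div_iff₀ hT]
  have := mul_le_mul_of_nonpos_right h hl.le
  linarith

lemma Cluster_par {x y z x' : ℝ} (hyx : y < x) (hz : 0 < z) (hzy : 2 * z ≤ y)
    (hs : 2 * (y ^ 2 + x * z + z ^ 2) < x ^ 2 + y ^ 2) (hx' : x < x') :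
    ∃ L θ δ : ℝ, 1 < L ∧ 2 * (z * L) ≤ x ∧ 2 * ((y ^ 2 + x * z + z ^ 2) * L) ≤ x ^ 2 + y ^ 2 ∧
      0 < θ ∧ θ < 1 ∧ 0 < δ ∧ x * (1 + 10 * θ) = x' * Real.exp (δ * Real.log θ) := by
  have hx : 0 < x := by linarith
  have hZ : 0 < y ^ 2 + x * z + z ^ 2 := by positivity
  set θ := min (1 / 2) ((x' - x) / (20 * x)) with hθ
  have h0 : 0 < θ := lt_min (by norm_num) (div_pos (by linarith) (by positivity))
  have h1 : θ < 1 := lt_of_le_of_lt (min_le_left _ _) (by norm_num)
  have h2 : θ * (20 * x) ≤ x' - x := (le_div_iff₀ (by positivity)).1 (min_le_right _ _)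
  have h3 : x * (1 + 10 * θ) < x' := by nlinarith
  have h4 : 0 < x * (1 + 10 * θ) / x' := div_pos (by positivity) (by linarith)
  have h5 : x * (1 + 10 * θ) / x' < 1 := (div_lt_one (by linarith)).2 h3
  have hl : Real.log θ < 0 := Real.log_neg h0 h1
  refine ⟨min (x / (2 * z)) ((x ^ 2 + y ^ 2) / (2 * (y ^ 2 + x * z + z ^ 2))), θ,
    Real.log (x * (1 + 10 * θ) / x') / Real.log θ, ?_, ?_, ?_, h0, h1, ?_, ?_⟩
  · exact lt_min ((one_lt_div (by positivity)).2 (by linarith))
      ((one_lt_div (by positivity)).2 hs)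
  · have := (le_div_iff₀ (show 0 < 2 * z by positivity)).1
      (min_le_left (x / (2 * z)) ((x ^ 2 + y ^ 2) / (2 * (y ^ 2 + x * z + z ^ 2))))
    linarith
  · have := (le_div_iff₀ (show 0 < 2 * (y ^ 2 + x * z + z ^ 2) by positivity)).1
      (min_le_right (x / (2 * z)) ((x ^ 2 + y ^ 2) / (2 * (y ^ 2 + x * z + z ^ 2))))
    linarith
  · exact div_pos_of_neg_of_neg (Real.log_neg h4 h5) hl
  · rw [div_mul_cancel₀ _ hl.ne, Real.exp_log h4]
    have : x' ≠ 0 := by linarith
    field_simp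

lemma cluster {x y z x' : ℝ} (hxy : x + y = 1) (hyx : y < x) (hz : 0 < z) (hzy : 2 * z ≤ y)
    (hs : 2 * (y ^ 2 + x * z + z ^ 2) < x ^ 2 + y ^ 2) (hx' : x < x') :
    ∃ P : ℕ, ∀ (ι : Type) [Fintype ι] [DecidableEq ι] (A : Finset (ι → E)) (c : ℝ)
      (K : (ι → E) → (ι → E) → ℝ) (n : ℕ), Pack A → A.Nonempty → 0 < c → Ker A x y z c K →
      (∀ M : ι → E × E, IsPairing M → (A.filter (InCube M)).card ≤ n) →
      (c / 2) ^ P ≤ n * x' ^ Fintype.card ι := by
  obtain ⟨L, θ, δ, hL, hL1, hL2, h0, h1, hδ, hx1⟩ := Cluster_par hyx hz hzy hs hx'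
  have hl : Real.log θ < 0 := Real.log_neg h0 h1
  have hlL : 0 < Real.log L := Real.log_pos hL
  have hx : 0 < x := by linarith
  have hy : 0 ≤ y := by linarith
  set G : ℝ := (1 + 2 / δ) / Real.log L with hG
  have hG0 : 0 < G := by positivity
  refine ⟨⌈1 - G * Real.log θ⌉₊, ?_⟩
  intro ι _ _ A c K n hA hne hc hK hn
  obtain ⟨B, hB, hb1, hb2, hb3⟩ := good_row hA hne hxy hyx.le hz.le hzy hL.le hL1 hL2 hc.le hK
  set d := ∑ B' ∈ A, K B B' with hd
  set κ := ∑ B' ∈ A, ∑ B'' ∈ A, K B B' * K B B'' * L ^ meets B' B'' with hκ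
  have hκ0 : 0 ≤ κ := sum_nonneg fun B' _ => sum_nonneg fun B'' _ =>
    mul_nonneg (mul_nonneg (hK.nonneg _ _) (hK.nonneg _ _)) (pow_nonneg (by linarith) _)
  have hcκ : 0 ≤ c / 2 * κ := by positivity
  have hcd : c / 2 ≤ d := by linarith
  have hd0 : 0 < d := by linarith
  set h := -Real.log (c / 2) with hh
  have hh0 : 0 ≤ h := by
    have := Real.log_nonpos (show 0 ≤ c / 2 by positivity) (by linarith)
    linarith
  have heh : c / 2 * Real.exp h = 1 := by
    rw [hh, Real.exp_neg, Real.exp_log (by positivity)]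
    field_simp
  have hexp : 0 < Real.exp h := Real.exp_pos h
  have hde : 1 ≤ d * Real.exp h := by
    rw [← heh]
    exact mul_le_mul_of_nonneg_right hcd hexp.le
  have m1 := Cluster_jensen A (K B) (meets B) (fun i _ => hK.nonneg _ _) hd0 hL
    (R := h) (hb3.trans hde)
  have hdd : ∑ p ∈ A ×ˢ A, K B p.1 * K B p.2 = d * d := by
    rw [sum_product, hd, sum_mul_sum]
  have m2 := Cluster_jensen (A ×ˢ A) (fun p => K B p.1 * K B p.2) (fun p => meets p.1 p.2)
    (fun i _ => mul_nonneg (hK.nonneg _ _) (hK.nonneg _ _)) (by rw [hdd]; positivity) hL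
    (R := 2 * h) (by
      rw [hdd, sum_product]
      change κ ≤ _
      have a1 : κ ≤ d * Real.exp h := by
        calc κ = c / 2 * κ * Real.exp h := by rw [mul_right_comm, heh, one_mul]
          _ ≤ d * Real.exp h := mul_le_mul_of_nonneg_right (by linarith) hexp.le
      calc κ ≤ d * Real.exp h * 1 := by linarith
        _ ≤ d * Real.exp h * (d * Real.exp h) := mul_le_mul_of_nonneg_left hde (by positivity)
        _ = d * d * Real.exp (2 * h) := by rw [two_mul, Real.exp_add]; ring)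
  rw [hdd, sum_product] at m2
  obtain ⟨P, hP, hpa⟩ := partner A B (K B) (hK.nonneg B) (s := δ * d) (by positivity)
  have m3 : ∑ B' ∈ A, K B B' * (exc (fun i => (B i, P i)) B' : ℝ)
      ≤ d * (δ * Fintype.card ι + G * h) := by
    have a2 : (∑ B' ∈ A, ∑ B'' ∈ A, K B B' * K B B'' * (meets B' B'' : ℝ)) / (δ * d)
        ≤ d * d * (2 * h) / Real.log L / (δ * d) :=
      div_le_div_of_nonneg_right m2 (by positivity)
    have a3 : d * h / Real.log L + δ * d * Fintype.card ι + d * d * (2 * h) / Real.log L / (δ * d)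
        = d * (δ * Fintype.card ι + G * h) := by
      rw [hG]
      field_simp
      ring
    rw [← hd] at m1
    linarith
  have m4 := Cluster_low A (K B) (exc fun i => (B i, P i)) (fun i _ => hK.nonneg _ _) hd0 h0 h1 m3
  rw [← hd] at m4
  have m5 : ∑ B' ∈ A, K B B' * θ ^ exc (fun i => (B i, P i)) B'
      ≤ x ^ Fintype.card ι * (n * (1 + 10 * θ) ^ Fintype.card ι) := by
    refine le_trans ?_ (mul_le_mul_of_nonneg_left
      (cube_sum A n hn (M := fun i => (B i, P i)) hP h0.le) (by positivity))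
    rw [mul_sum]
    refine sum_le_sum fun B' hB' => mul_le_mul_of_nonneg_right ?_ (by positivity)
    refine (hK.le B hB B' hB').trans ?_
    calc ∏ i, w x y z (B i) (B' i) ≤ ∏ _i : ι, x :=
          prod_le_prod (fun i _ => w_nonneg hx.le hy hz.le _ _)
            (fun i _ => w_le hyx.le (by linarith) _ _)
      _ = x ^ Fintype.card ι := by rw [prod_const, card_univ]
  set k := Fintype.card ι with hk
  have m6 : x ^ k * (n * (1 + 10 * θ) ^ k) = n * x' ^ k * Real.exp (δ * k * Real.log θ) := by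
    have : x ^ k * (n * (1 + 10 * θ) ^ k) = n * (x * (1 + 10 * θ)) ^ k := by
      rw [mul_pow]; ring
    rw [this, hx1, mul_pow, ← Real.exp_nat_mul]
    ring_nf
  have m7 : d * Real.exp (G * h * Real.log θ) ≤ n * x' ^ k := by
    have a4 : d * Real.exp ((δ * k + G * h) * Real.log θ)
        = d * Real.exp (G * h * Real.log θ) * Real.exp (δ * k * Real.log θ) := by
      rw [mul_assoc, ← Real.exp_add]
      ring_nf
    have a5 := m4.trans m5
    rw [m6, a4] at a5
    exact le_of_mul_le_mul_right a5 (Real.exp_pos _)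
  refine le_trans ?_ m7
  have a6 : c / 2 = Real.exp (-h) := by
    rw [hh, neg_neg, Real.exp_log (by positivity)]
  have a7 := Nat.le_ceil (1 - G * Real.log θ)
  calc (c / 2) ^ ⌈1 - G * Real.log θ⌉₊
      = Real.exp ((⌈1 - G * Real.log θ⌉₊ : ℝ) * (-h)) := by rw [Real.exp_nat_mul, ← a6]
    _ ≤ Real.exp (-h + G * h * Real.log θ) := by
        refine Real.exp_le_exp.2 ?_
        have := mul_le_mul_of_nonneg_right a7 hh0
        linarith
    _ = c / 2 * Real.exp (G * h * Real.log θ) := by rw [Real.exp_add, ← a6]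
    _ ≤ d * Real.exp (G * h * Real.log θ) :=
        mul_le_mul_of_nonneg_right hcd (Real.exp_pos _).le

end Pool.Agent.Work.MP_85f59e_co.Five
end

-- merged part: Pool.Agent.Work.MP_85f59e_co.Five.Final
section
/-
The number of boxes in a two-fold code of order five grows with base below `5 / 2`.

Plan.
* `greedy`: strong induction on the size of `A`; if some cube holds at least `n` boxes of `A`, take
  `n` of them (`Finset.exists_subset_card_eq`), apply the hypothesis to the rest, `Fin.cons`.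
* `sparse_bound`: `ker_all` with `t = (x' - 1/2) / 2`, then `cluster`; `c = M / (5/2) ^ k` by `top`,
  so `(c ^ p / 2) ^ P ≤ n * x' ^ k`; take the exponent `p * P + 1` if needed (`c ≤ 1` follows from
  `c * M ≤ mass ≤ M` by `row_le`), and the constant `2 ^ P`.
* `box_bound`: `u = 63 * k / 128`, `V = (lowSets ι u).card ≥ 1`, `n = 4 * V`.  From `greedy` and
  `rank_bound`, `r * n ≤ 2 * r * V + W`, so `r * n ≤ 2 * W`.  `few_le` with `θ = 1 / 400`:
  `k - 2 * u - 2 ≤ k / 64`, `400 ≤ (11/10) ^ 64`, so `W ≤ (9/4 * (11/10)) ^ k`.  `low_le` with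
  `ρ = σ ^ 128`, `σ = 4095 / 4096`: `V ≤ v ^ k`, `v = (1 + σ ^ 128) / σ ^ 63 < 2` (`norm_num`).
  Take `x'` with `1/2 < x'` and `v * x' < 1`.  The rest `R` satisfies
  `(R.card / (5/2) ^ k) ^ P ≤ C * (4 * v ^ k) * x' ^ k`; with `b = (v * x') ^ (1 / P) < 1`
  (`Real.rpow`, or any `b < 1` with `v * x' ≤ b ^ P`) and `D ^ P ≥ 4 * C` this gives
  `R.card ≤ D * (5/2 * b) ^ k` (`pow_le_pow_left₀`, `pow_le_pow_iff_left₀`).
-/

namespace Pool.Agent.Work.MP_85f59e_co.Five

open Finset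

lemma greedy {ι : Type} [Fintype ι] [DecidableEq ι] (A : Finset (ι → E)) {n : ℕ} (hn : 0 < n) :
    ∃ (r : ℕ) (M : Fin r → ι → E × E) (F : Fin r → Finset (ι → E)) (R : Finset (ι → E)),
      (∀ c, IsPairing (M c)) ∧ (∀ c, F c ⊆ A) ∧ (∀ c, ∀ B ∈ F c, InCube (M c) B) ∧
      (∀ c c', c ≠ c' → Disjoint (F c) (F c')) ∧ (∀ c, (F c).card = n) ∧ R ⊆ A ∧
      A.card = R.card + r * n ∧
      ∀ M' : ι → E × E, IsPairing M' → (R.filter (InCube M')).card < n := by
  induction A using Finset.strongInduction with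
  | H A ih =>
    by_cases h : ∃ M', IsPairing M' ∧ n ≤ (A.filter (InCube M')).card
    · obtain ⟨M', hM', hle⟩ := h
      obtain ⟨G, hG, hGc⟩ := exists_subset_card_eq hle
      have hGA : G ⊆ A := hG.trans (filter_subset _ _)
      obtain ⟨r, M, F, R, h1, h2, h3, h4, h5, h6, h7, h8⟩ :=
        ih (A \ G) (sdiff_ssubset hGA (card_pos.1 (hGc ▸ hn)))
      have hd : ∀ c, Disjoint G (F c) := fun c => disjoint_sdiff.mono_right (h2 c)
      refine ⟨r + 1, Fin.cons M' M, Fin.cons G F, R, Fin.cases hM' h1,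
        Fin.cases hGA fun c => (h2 c).trans sdiff_subset,
        Fin.cases (fun B hB => (mem_filter.1 (hG hB)).2) h3,
        Fin.cases (Fin.cases (fun e => absurd rfl e) fun c _ => hd c)
          fun c => Fin.cases (fun _ => (hd c).symm) fun c' e => h4 c c' fun e' => e (e' ▸ rfl),
        Fin.cases hGc h5, h6.trans sdiff_subset, ?_, h8⟩
      have := card_sdiff_add_card_eq_card hGA
      rw [add_mul, one_mul]
      omega
    · exact ⟨0, Fin.elim0, Fin.elim0, A, fun c => c.elim0, fun c => c.elim0, fun c => c.elim0,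
        fun c => c.elim0, fun c => c.elim0, subset_rfl, by simp,
        fun M' hM' => not_le.1 fun k => h ⟨M', hM', k⟩⟩

lemma sparse_bound {x' : ℝ} (hx' : 1 / 2 < x') :
    ∃ (P : ℕ) (C : ℝ), 0 < P ∧ 0 < C ∧ ∀ (ι : Type) [Fintype ι] [DecidableEq ι]
      (S : Finset (ι → Fin 5)) (A : Finset (ι → E)) (n : ℕ), TwoFold S → (∀ B ∈ A, InS S B) →
      (∀ M : ι → E × E, IsPairing M → (A.filter (InCube M)).card ≤ n) →
      ((A.card : ℝ) / (5 / 2) ^ Fintype.card ι) ^ P ≤ C * n * x' ^ Fintype.card ι := by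
  obtain ⟨x, y, z, p, hxy, hyx, hx, hz, hzy, hs, hall⟩ :=
    ker_all (t := (x' - 1 / 2) / 2) (by linarith)
  obtain ⟨P, hP⟩ := cluster hxy hyx hz hzy hs (x' := x') (by linarith)
  refine ⟨p * P + 1, 2 ^ P, Nat.succ_pos _, by positivity, fun ι _ _ S A n hS hA hn => ?_⟩
  have hx0 : 0 < x' := by linarith
  rcases A.eq_empty_or_nonempty with rfl | hne
  · rw [card_empty, Nat.cast_zero, zero_div, zero_pow (Nat.succ_ne_zero _)]
    positivity
  have hM : (0 : ℝ) < A.card := Nat.cast_pos.2 hne.card_pos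
  have hK := top hS hA
  have hp := pack_of_inS hS hA
  generalize hc : (A.card : ℝ) / (5 / 2) ^ Fintype.card ι = c at hK ⊢
  have hc0 : 0 < c := by
    rw [← hc]
    positivity
  have hc1 : c ≤ 1 := by
    refine le_of_mul_le_mul_right (hK.big.trans ?_) hM
    refine (sum_le_card_nsmul _ _ 1 fun B _ => ?_).trans (by simp)
    refine (row_le hp (by norm_num) (by norm_num) (by norm_num) B).trans ?_
    norm_num
  obtain ⟨K', hK'⟩ := hall ι A c _ hp hc0.le hK
  have h := hP ι A _ K' n hp hne (pow_pos hc0 p) hK' hn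
  rw [div_pow, div_le_iff₀ (by positivity), ← pow_mul] at h
  calc c ^ (p * P + 1) ≤ c ^ (p * P) := pow_le_pow_of_le_one hc0.le hc1 (Nat.le_succ _)
    _ ≤ _ := h
    _ = _ := by ring

lemma Final_few (ι : Type) [Fintype ι] [DecidableEq ι] :
    ((fewPairs ι (63 * Fintype.card ι / 128)).card : ℝ) ≤ (99 / 40) ^ Fintype.card ι := by
  refine (few_le ι _ (θ := 1 / 400) (by norm_num) (by norm_num)).trans ?_
  generalize Fintype.card ι = k
  have h : 64 * (k - 2 * (63 * k / 128) - 2) ≤ k := by omega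
  generalize k - 2 * (63 * k / 128) - 2 = m at h
  have h1 : (400 : ℝ) ^ m ≤ (11 / 10) ^ k :=
    calc (400 : ℝ) ^ m ≤ ((11 / 10) ^ 64) ^ m := pow_le_pow_left₀ (by norm_num) (by norm_num) m
      _ ≤ _ := by
        rw [← pow_mul]
        exact pow_le_pow_right₀ (by norm_num) h
  rw [one_div, inv_pow, div_inv_eq_mul]
  refine (mul_le_mul_of_nonneg_left h1 (by positivity)).trans (le_of_eq ?_)
  rw [← mul_pow]
  norm_num

lemma Final_low : ∃ v : ℝ, 0 < v ∧ v < 2 ∧ ∀ (ι : Type) [Fintype ι] [DecidableEq ι],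
    ((lowSets ι (63 * Fintype.card ι / 128)).card : ℝ) ≤ v ^ Fintype.card ι := by
  obtain ⟨σ, h0, h1, h2⟩ : ∃ σ : ℝ, 0 < σ ∧ σ ≤ 1 ∧ 1 + σ ^ 128 < 2 * σ ^ 63 :=
    ⟨4095 / 4096, by norm_num, by norm_num, by norm_num⟩
  refine ⟨(1 + σ ^ 128) / σ ^ 63, by positivity, (div_lt_iff₀ (by positivity)).2 h2,
    fun ι _ _ => ?_⟩
  refine (low_le ι _ (pow_pos h0 128) (pow_le_one₀ h0.le h1)).trans ?_
  rw [div_pow, ← pow_mul, ← pow_mul]
  exact div_le_div_of_nonneg_left (by positivity) (by positivity)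
    (pow_le_pow_of_le_one h0.le h1 (Nat.mul_div_le _ _))

theorem box_bound : ∃ C β : ℝ, 0 ≤ C ∧ 0 ≤ β ∧ β < 5 / 2 ∧
    ∀ (ι : Type) [Fintype ι] [DecidableEq ι] (S : Finset (ι → Fin 5)) (A : Finset (ι → E)),
      TwoFold S → (∀ B ∈ A, InS S B) → (A.card : ℝ) ≤ C * β ^ Fintype.card ι := by
  obtain ⟨v, hv0, hv2, hv⟩ := Final_low
  obtain ⟨x', hx, hq⟩ : ∃ x' : ℝ, 1 / 2 < x' ∧ v * x' < 1 := by
    have h := one_div_lt_one_div_of_lt hv0 hv2
    refine ⟨(1 / 2 + 1 / v) / 2, by linarith, ?_⟩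
    have : v * ((1 / 2 + 1 / v) / 2) = v / 4 + 1 / 2 := by
      field_simp
      ring
    linarith
  have hx0 : 0 < x' := by linarith
  obtain ⟨P, C, hP, hC, hs⟩ := sparse_bound hx
  obtain ⟨b, hb0, hb1, hb⟩ : ∃ b : ℝ, 0 ≤ b ∧ b < 1 ∧ b ^ P = v * x' :=
    ⟨(v * x') ^ (P⁻¹ : ℝ), by positivity, Real.rpow_lt_one (by positivity) hq (by positivity),
      Real.rpow_inv_natCast_pow (by positivity) hP.ne'⟩
  obtain ⟨D, hD0, hD⟩ : ∃ D : ℝ, 0 ≤ D ∧ D ^ P = 4 * C :=
    ⟨(4 * C) ^ (P⁻¹ : ℝ), by positivity, Real.rpow_inv_natCast_pow (by positivity) hP.ne'⟩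
  refine ⟨D + 2, max (99 / 40) (5 / 2 * b), by positivity, by positivity,
    max_lt (by norm_num) (by linarith), fun ι _ _ S A hS hA => ?_⟩
  have hV := hv ι
  have hW := Final_few ι
  have hV0 : 0 < (lowSets ι (63 * Fintype.card ι / 128)).card :=
    card_pos.2 ⟨∅, mem_filter.2 ⟨mem_univ _, Nat.zero_le _⟩⟩
  obtain ⟨r, M, F, R, h1, h2, h3, h4, h5, h6, h7, h8⟩ := greedy A (Nat.mul_pos four_pos hV0)
  have hr := rank_bound (pack_of_inS hS hA) M h1 F h2 h3 h4 (63 * Fintype.card ι / 128)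
  have hR := hs ι S R _ hS (fun B hB => hA B (h6 hB)) fun M' hM' => (h8 M' hM').le
  simp only [h5, sum_const, card_univ, Fintype.card_fin, smul_eq_mul] at hr
  generalize (lowSets ι (63 * Fintype.card ι / 128)).card = V at *
  generalize (fewPairs ι (63 * Fintype.card ι / 128)).card = W at *
  generalize Fintype.card ι = k at *
  have hA' : A.card ≤ R.card + 2 * W := by nlinarith
  have hR' : (R.card : ℝ) / (5 / 2) ^ k ≤ D * b ^ k := by
    refine (pow_le_pow_iff_left₀ (by positivity) (by positivity) hP.ne').1 (hR.trans ?_)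
    rw [mul_pow, hD, ← pow_mul, mul_comm k P, pow_mul, hb, mul_pow]
    push_cast
    have := mul_le_mul_of_nonneg_left hV (by positivity : 0 ≤ 4 * C * x' ^ k)
    linarith
  rw [div_le_iff₀ (by positivity), mul_assoc, ← mul_pow, mul_comm b] at hR'
  have e1 := pow_le_pow_left₀ (by norm_num) (le_max_left (99 / 40 : ℝ) (5 / 2 * b)) k
  have e2 := mul_le_mul_of_nonneg_left
    (pow_le_pow_left₀ (by positivity) (le_max_right (99 / 40 : ℝ) (5 / 2 * b)) k) hD0
  have e3 : (A.card : ℝ) ≤ R.card + 2 * W := by exact_mod_cast hA'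
  linarith

end Pool.Agent.Work.MP_85f59e_co.Five
end

-- merged part: Pool.Agent.Work.MP_85f59e_co.Five.Reduce
section
/-
From boxes to the number of Latin hypercubes of order five.

Plan.
* `last_const`: the mean does not depend on the pair (`expect_perm_mul` with a permutation that
  sends `0, 1` to `x, y`); it is positive by `expect_last` and at most `1 / 2` by `expect_lt2`.
* `avail_le`: for a given `π` with `Avail π f z s` let `J` be the set of `i` where `z i` and
  `pos f z s i` come last; `avail_lt` and `avail_full` give `Full f J z s`.  So `ind (Avail ..)` is at most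
  the sum over `J` of `ind (Full f J z s) * ∏ i, ψ J i (π i)` with `ψ = lt * last` on `J` and
  `lt * (1 - last)` off `J`; `expect_pi_prod` (compare `P4_aux` in `Prob.lean`).
* `latin_five`: as `explicit_bound` in `Main.lean` with `predictor_bound`; then `avail_le`,
  `full_count` and the binomial sum `Finset.sum_pow_mul_eq_add_pow`:
  `c0 = 2 * β * p + 5 * (1 / 2 - p) < 5 / 2`.
* `five_upper`: `numMDS_eq`, `logb_le_of_le_exp`, and `D * c0 ^ d ≤ c ^ (d + 1)` for large `d` with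
  `c = (c0 + 5 / 2) / 2`.
-/

namespace Pool.Agent.Work.MP_85f59e_co.Five

open Finset Filter
open Pool.Agent.Work.MP_85f59e_co
open scoped BigOperators

lemma reduce_perm {x y : Fin 5} (h : x ≠ y) : ∃ τ : Equiv.Perm (Fin 5), τ 0 = x ∧ τ 1 = y := by
  refine ⟨Equiv.swap (Equiv.swap 0 x 1) y * Equiv.swap 0 x, ?_, ?_⟩
  · simp only [Equiv.Perm.coe_mul, Function.comp_apply, Equiv.swap_apply_left]
    refine Equiv.swap_apply_of_ne_of_ne ?_ h
    intro e
    have : Equiv.swap 0 x 0 = Equiv.swap 0 x 1 := by rw [Equiv.swap_apply_left]; exact e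
    exact absurd ((Equiv.swap 0 x).injective this) (by decide)
  · simp only [Equiv.Perm.coe_mul, Function.comp_apply, Equiv.swap_apply_left]

lemma last_const : ∃ p : ℝ, 0 < p ∧ p ≤ 1 / 2 ∧ ∀ x y : Fin 5, x ≠ y →
    𝔼 σ : Equiv.Perm (Fin 5), ind (σ x < σ y) * ind (∀ c, c ≠ x → c ≠ y → σ c < σ x) = p := by
  refine ⟨𝔼 σ : Equiv.Perm (Fin 5), ind (σ 0 < σ 1) * ind (∀ c, c ≠ 0 → c ≠ 1 → σ c < σ 0),
    ?_, ?_, ?_⟩
  · refine lt_of_lt_of_le ?_ (expect_last (q := 5) (x := 0) (y := 1) (by decide))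
    positivity
  · rw [← expect_lt2 (q := 5) (x := 0) (y := 1) (by decide)]
    exact expect_le_expect fun σ _ => mul_le_of_le_one_right (ind_nonneg _) (ind_le_one _)
  · intro x y hxy
    obtain ⟨τ, h0, h1⟩ := reduce_perm hxy
    rw [← expect_perm_mul τ
      (fun σ => ind (σ 0 < σ 1) * ind (∀ c, c ≠ 0 → c ≠ 1 → σ c < σ 0))]
    refine expect_congr rfl fun σ _ => ?_
    simp only [Equiv.Perm.coe_mul, Function.comp_apply, h0, h1]
    congr 1
    refine ind_congr ⟨fun h c c0 c1 => h (τ c) ?_ ?_, fun h c c0 c1 => ?_⟩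
    · rw [← h0]; exact τ.injective.ne c0
    · rw [← h1]; exact τ.injective.ne c1
    · have := h (τ.symm c) (fun e => c0 (by rw [← h0, ← e, Equiv.apply_symm_apply]))
        (fun e => c1 (by rw [← h1, ← e, Equiv.apply_symm_apply]))
      rwa [Equiv.apply_symm_apply] at this

lemma avail_le {p : ℝ} (hp : ∀ x y : Fin 5, x ≠ y →
    𝔼 σ : Equiv.Perm (Fin 5), ind (σ x < σ y) * ind (∀ c, c ≠ x → c ≠ y → σ c < σ x) = p)
    {d : ℕ} {f : (Fin d → Fin 5) → Fin 5} (hf : Latin f) {z : Fin d → Fin 5} {s : Fin 5}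
    (hs : s ≠ f z) :
    𝔼 π, ind (Avail π f z s)
      ≤ ∑ J : Finset (Fin d), ind (Full f J z s) * (p ^ J.card * (1 / 2 - p) ^ (d - J.card)) := by
  classical
  let e : Fin d → Equiv.Perm (Fin 5) → ℝ := fun i σ => ind (σ (z i) < σ (pos f z s i))
  let F : Fin d → Equiv.Perm (Fin 5) → ℝ :=
    fun i σ => ind (∀ c, c ≠ z i → c ≠ pos f z s i → σ c < σ (z i))
  let ψ : Finset (Fin d) → Fin d → Equiv.Perm (Fin 5) → ℝ := fun J i σ =>
    e i σ * if i ∈ J then F i σ else 1 - F i σ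
  have hψ : ∀ J i σ, 0 ≤ ψ J i σ := by
    intro J i σ
    refine mul_nonneg (ind_nonneg _) ?_
    split_ifs
    · exact ind_nonneg _
    · exact sub_nonneg.2 (ind_le_one _)
  have hnn : ∀ (π : Fin d → Equiv.Perm (Fin 5)) (J : Finset (Fin d)),
      0 ≤ ind (Full f J z s) * ∏ i, ψ J i (π i) :=
    fun π J => mul_nonneg (ind_nonneg _) (prod_nonneg fun i _ => hψ _ _ _)
  have h1 : ∀ π : Fin d → Equiv.Perm (Fin 5), ind (Avail π f z s)
      ≤ ∑ J : Finset (Fin d), ind (Full f J z s) * ∏ i, ψ J i (π i) := by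
    intro π
    by_cases hA : Avail π f z s
    swap
    · rw [ind_of_not hA]
      exact sum_nonneg fun J _ => hnn π J
    let J0 : Finset (Fin d) :=
      univ.filter fun i => ∀ c, c ≠ z i → c ≠ pos f z s i → π i c < π i (z i)
    have hF : Full f J0 z s := avail_full hf hs hA J0 fun i hi => (mem_filter.1 hi).2
    have : ∀ i, ψ J0 i (π i) = 1 := by
      intro i
      have a0 : e i (π i) = 1 := ind_of (avail_lt hf hs hA i)
      by_cases a1 : i ∈ J0
      · have a2 : F i (π i) = 1 := ind_of (mem_filter.1 a1).2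
        simp only [ψ, a0, a2, if_pos a1, mul_one]
      · have a2 : F i (π i) = 0 := ind_of_not fun h => a1 (mem_filter.2 ⟨mem_univ _, h⟩)
        simp only [ψ, a0, a2, if_neg a1, sub_zero, mul_one]
    calc ind (Avail π f z s) = ind (Full f J0 z s) * ∏ i, ψ J0 i (π i) := by
          rw [ind_of hA, ind_of hF, prod_congr rfl fun i _ => this i]; simp
      _ ≤ _ := single_le_sum (f := fun J : Finset (Fin d) =>
            ind (Full f J z s) * ∏ i, ψ J i (π i)) (fun J _ => hnn π J) (mem_univ J0)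
  refine (expect_le_expect fun π _ => h1 π).trans (le_of_eq ?_)
  rw [expect_sum_comm]
  refine sum_congr rfl fun J _ => ?_
  rw [← mul_expect, expect_pi_prod (ψ J)]
  congr 1
  have h2 : ∀ i, 𝔼 σ, ψ J i σ = if i ∈ J then p else 1 / 2 - p := by
    intro i
    have a1 : 𝔼 σ, e i σ = 1 / 2 := expect_lt2 (pos_ne hf hs i).symm
    have a2 : 𝔼 σ, e i σ * F i σ = p := hp _ _ (pos_ne hf hs i).symm
    by_cases b1 : i ∈ J
    · simp only [ψ, if_pos b1]
      exact a2
    · simp only [ψ, if_neg b1, mul_sub, mul_one]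
      rw [expect_sub_distrib, a1, a2]
  rw [prod_congr rfl fun i _ => h2 i, prod_ite, prod_const, prod_const]
  have c1 : (univ.filter fun i => i ∈ J) = J := by ext; simp
  have c2 : (univ.filter fun i => ¬ i ∈ J) = Jᶜ := by ext; simp
  rw [c1, c2, card_compl, Fintype.card_fin]

lemma latin_five : ∃ D c0 : ℝ, 0 ≤ D ∧ 0 ≤ c0 ∧ c0 < 5 / 2 ∧
    ∀ d : ℕ, ((latinSet d 5).card : ℝ) ≤ Real.exp (Real.log 2 * (D * c0 ^ d)) := by
  obtain ⟨p, hp0, hp1, hp⟩ := last_const
  obtain ⟨C, β, hC, hβ, hβ1, hb⟩ := box_bound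
  have hq : 0 ≤ 1 / 2 - p := by linarith
  refine ⟨25 * C, 2 * β * p + 5 * (1 / 2 - p), by positivity, by positivity, by nlinarith, ?_⟩
  intro d
  refine predictor_bound (by norm_num) (Ω := Fin d → Equiv.Perm (Fin 5)) id (fun _ _ _ _ => 1)
    (fun ω f z s => Real.log 2 * ind (Avail ω f z s)) (fun _ _ _ _ => one_pos)
    (fun _ _ _ _ _ => rfl) ?_ _ ?_
  · intro ω f z s _ _
    by_cases h : Avail ω f z s
    · simp only [id, ind_of h, mul_one, Real.exp_log two_pos]; norm_num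
    · simp [ind_of_not h]
  · intro f hf
    have hl : 0 ≤ Real.log 2 := Real.log_nonneg one_le_two
    calc _ ≤ ∑ z, ∑ s ∈ univ.erase (f z), Real.log 2 * ∑ J : Finset (Fin d),
            ind (Full f J z s) * (p ^ J.card * (1 / 2 - p) ^ (d - J.card)) := by
          refine sum_le_sum fun z _ => sum_le_sum fun s hs => ?_
          rw [← mul_expect]
          exact mul_le_mul_of_nonneg_left (avail_le hp hf (ne_of_mem_erase hs)) hl
      _ = Real.log 2 * ∑ J : Finset (Fin d), (∑ z, ∑ s ∈ univ.erase (f z), ind (Full f J z s))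
            * (p ^ J.card * (1 / 2 - p) ^ (d - J.card)) := by
          simp only [← mul_sum]
          congr 1
          simp only [sum_mul]
          rw [sum_comm]
          refine sum_congr rfl fun z _ => ?_
          rw [sum_comm]
      _ ≤ Real.log 2 * ∑ J : Finset (Fin d), 25 * C * (5 ^ (d - J.card) * (2 * β) ^ J.card)
            * (p ^ J.card * (1 / 2 - p) ^ (d - J.card)) := by
          refine mul_le_mul_of_nonneg_left (sum_le_sum fun J _ => ?_) hl
          exact mul_le_mul_of_nonneg_right (full_count hC hβ hb hf J) (by positivity)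
      _ = _ := by
          congr 1
          have h := sum_pow_mul_eq_add_pow (2 * β * p) (5 * (1 / 2 - p)) (univ : Finset (Fin d))
          rw [powerset_univ, card_univ, Fintype.card_fin] at h
          rw [← h, mul_sum]
          refine sum_congr rfl fun J _ => ?_
          simp only [mul_pow]
          ring

theorem five_upper : ∃ c : ℝ, c < 5 / 2 ∧
    ∀ᶠ n : ℕ in atTop, Real.logb 2 (numMDS 5 n) ≤ c ^ n := by
  obtain ⟨D, c0, hD, hc0, hc1, h⟩ := latin_five
  set c : ℝ := (c0 + 5 / 2) / 2 with hc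
  have hcpos : 1 ≤ c := by rw [hc]; linarith
  have hlt : c0 < c := by rw [hc]; linarith
  refine ⟨c, by rw [hc]; linarith, ?_⟩
  have ht : Tendsto (fun d : ℕ => D * (c0 / c) ^ d) atTop (nhds (D * 0)) :=
    (tendsto_pow_atTop_nhds_zero_of_lt_one (by positivity)
      ((div_lt_one (by linarith)).2 hlt)).const_mul D
  rw [mul_zero] at ht
  obtain ⟨N, hN⟩ := eventually_atTop.1 (ht.eventually (ge_mem_nhds one_pos))
  filter_upwards [eventually_ge_atTop (N + 1)] with n hn
  obtain ⟨d, rfl⟩ : ∃ d, n = d + 1 := ⟨n - 1, by omega⟩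
  have h1 := hN d (by omega)
  rw [numMDS_eq]
  refine (logb_le_of_le_exp (by positivity) (h d)).trans ?_
  have hcd : 0 < c ^ d := by positivity
  rw [div_pow, ← mul_div_assoc, div_le_one hcd] at h1
  calc D * c0 ^ d ≤ c ^ d := h1
    _ ≤ c ^ (d + 1) := pow_le_pow_right₀ hcpos (by omega)

end Pool.Agent.Work.MP_85f59e_co.Five
end
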